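import Mathlib

section

set_option autoImplicit false

namespace Pool.Agent.MP_ee574f_co

open SimpleGraph

variable {V : Type}

/-- `f` runs through a chordless longest cycle of `G`. -/
structure Long (G : SimpleGraph V) (n : ℕ) (f : ZMod n → V) : Prop where
  hn : 3 ≤ n
  inj : Function.Injective f
  adj : ∀ i, G.Adj (f i) (f (i + 1))
  long : ∀ l : List V, l.Nodup → 3 ≤ l.length → l.IsChain G.Adj →
    (∀ a ∈ l.head?, ∀ b ∈ l.getLast?, G.Adj b a) → l.length ≤ n
  chordless : ∀ i j, G.Adj (f i) (f j) → j = i + 1 ∨ i = j + 1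

theorem cycle_of_list {G : SimpleGraph V} (l : List V) (nd : l.Nodup) (h3 : 3 ≤ l.length)
    (hc : l.IsChain G.Adj) (hl : ∀ a ∈ l.head?, ∀ b ∈ l.getLast?, G.Adj b a) :
    ∃ (v : V) (d : G.Walk v v), d.IsCycle ∧ d.length = l.length := by
  have hne : l ≠ [] := by rintro rfl; simp at h3
  have hadj : G.Adj (l.getLast hne) (l.head hne) :=
    hl _ (by simp [List.head?_eq_some_head hne]) _ (by simp [List.getLast?_eq_some_getLast hne])
  have hs := Walk.support_ofSupport hne hc
  have hp : (Walk.ofSupport l hne hc).IsPath := Walk.IsPath.mk' (by rw [hs]; exact nd)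
  have hlen : (Walk.ofSupport l hne hc).length + 1 = l.length := by
    rw [← Walk.length_support, hs]
  refine ⟨_, Walk.cons hadj (Walk.ofSupport l hne hc), ?_, by rw [Walk.length_cons, hlen]⟩
  rw [Walk.cons_isCycle_iff]
  refine ⟨hp, fun he => ?_⟩
  rw [Sym2.eq_swap] at he
  have := hp.length_eq_one_of_mem_edges he
  omega

theorem long_of_walk {G : SimpleGraph V} {u : V} (c : G.Walk u u) (hc : c.IsCycle)
    (hmax : ∀ (v : V) (d : G.Walk v v), d.IsCycle → d.length ≤ c.length)
    (hch : ¬ ∃ x y : V, x ∈ c.support ∧ y ∈ c.support ∧ G.Adj x y ∧ s(x, y) ∉ c.edges) :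
    Long G c.length (fun i => c.getVert i.val) := by
  have h3 := hc.three_le_length
  have : NeZero c.length := ⟨by omega⟩
  have hstep : ∀ i : ZMod c.length, c.getVert (i + 1).val = c.getVert (i.val + 1) := by
    intro i
    have hi := ZMod.val_lt i
    have : Fact (1 < c.length) := ⟨by omega⟩
    rw [ZMod.val_add, ZMod.val_one]
    rcases Nat.lt_or_ge (i.val + 1) c.length with h | h
    · rw [Nat.mod_eq_of_lt h]
    · have : i.val + 1 = c.length := by omega
      rw [this, Nat.mod_self, Walk.getVert_zero, Walk.getVert_length]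
  have hinj : Function.Injective (fun i : ZMod c.length => c.getVert i.val) := by
    intro i j hij
    have hi := ZMod.val_lt i
    have hj := ZMod.val_lt j
    apply ZMod.val_injective
    exact hc.getVert_injOn' (by simp only [Set.mem_ofPred_eq]; omega)
      (by simp only [Set.mem_ofPred_eq]; omega) hij
  refine ⟨h3, hinj, fun i => ?_, fun l nd hl hch' hcl => ?_, fun i j hij => ?_⟩
  · show G.Adj _ (c.getVert (i + 1).val)
    rw [hstep]; exact c.adj_getVert_succ (ZMod.val_lt i)
  · obtain ⟨v, d, hd, hdl⟩ := cycle_of_list l nd hl hch' hcl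
    exact hdl ▸ hmax v d hd
  · have hmem : s(c.getVert i.val, c.getVert j.val) ∈ c.edges := by
      by_contra hno
      exact hch ⟨_, _, c.getVert_mem_support _, c.getVert_mem_support _, hij, hno⟩
    obtain ⟨t, ht, he⟩ := (Walk.mk_mem_edges_iff_exists _).1 hmem
    have e1 : c.getVert t = c.getVert (t : ZMod c.length).val := by
      rw [ZMod.val_cast_of_lt ht]
    have e2 : c.getVert (t + 1) = c.getVert ((t : ZMod c.length) + 1).val := by
      rw [hstep, ZMod.val_cast_of_lt ht]
    rw [e1, e2, Sym2.eq_iff] at he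
    rcases he with ⟨a, b⟩ | ⟨a, b⟩
    · left; rw [← hinj a, ← hinj b]
    · right; rw [← hinj a, ← hinj b]

theorem sum_zmod (m : ℕ) [NeZero m] (F : ZMod m → ℕ) :
    ((List.range m).map (fun t : ℕ => F (t : ZMod m))).sum = ∑ i, F i := by
  have h1 : ∀ k : ℕ, ((List.range k).map (fun t : ℕ => F (t : ZMod m))).sum =
      ∑ t ∈ Finset.range k, F (t : ZMod m) := by
    intro k
    induction k with
    | zero => simp
    | succ k ih => rw [List.range_succ, List.map_append, List.sum_append, ih, Finset.sum_range_succ]; simp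
  rw [h1]
  refine Finset.sum_nbij' (fun t : ℕ => (t : ZMod m)) (fun i => i.val) ?_ ?_ ?_ ?_ ?_
  · intro t _; simp
  · intro i _; simp [ZMod.val_lt]
  · intro t ht; exact ZMod.val_cast_of_lt (Finset.mem_range.1 ht)
  · intro i _; simp
  · intro t _; rfl

/-- Substituting a path for every vertex of a cyclic sequence gives a cycle. -/
theorem Long.lift {G : SimpleGraph V} {n : ℕ} {f : ZMod n → V} (h : Long G n f)
    (m : ℕ) [NeZero m] (hm : 3 ≤ m) (W : ZMod m → List V) (hne : ∀ i, W i ≠ [])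
    (hnd : ∀ i, (W i).Nodup) (hch : ∀ i, (W i).IsChain G.Adj)
    (hdis : ∀ i j, i ≠ j → ∀ v ∈ W i, v ∉ W j)
    (hlink : ∀ i, ∀ a ∈ (W i).getLast?, ∀ b ∈ (W (i + 1)).head?, G.Adj a b) :
    ∑ i, (W i).length ≤ n := by
  obtain ⟨k, rfl⟩ : ∃ k, m = k + 1 := ⟨m - 1, by omega⟩
  set LL : List (List V) := (List.range (k + 1)).map (fun t : ℕ => W (t : ZMod (k + 1))) with hLL
  have hnil : [] ∉ LL := by
    simp only [hLL, List.mem_map, not_exists, not_and]
    intro t _ ht; exact hne _ ht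
  have hlen : LL.flatten.length = ∑ i, (W i).length := by
    rw [List.length_flatten, hLL, List.map_map]
    exact sum_zmod (k + 1) (fun i => (W i).length)
  have hge : k + 1 ≤ ∑ i, (W i).length := by
    calc k + 1 = ∑ _i : ZMod (k + 1), 1 := by simp
      _ ≤ _ := Finset.sum_le_sum fun i _ => List.length_pos_of_ne_nil (hne i)
  rw [← hlen]
  refine h.long _ ?_ (by omega) ?_ ?_
  · rw [List.nodup_flatten]
    refine ⟨?_, ?_⟩
    · intro l hl
      obtain ⟨t, _, rfl⟩ := List.mem_map.1 hl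
      exact hnd _
    · rw [hLL, List.pairwise_map]
      refine List.Pairwise.imp_of_mem ?_ (List.nodup_range (n := k + 1))
      intro s t hs ht hst v hv hv'
      refine hdis _ _ (fun e => hst ?_) v hv hv'
      have := congrArg ZMod.val e
      rwa [ZMod.val_cast_of_lt (List.mem_range.1 hs), ZMod.val_cast_of_lt (List.mem_range.1 ht)] at this
  · rw [List.isChain_flatten hnil]
    refine ⟨?_, ?_⟩
    · intro l hl
      obtain ⟨t, _, rfl⟩ := List.mem_map.1 hl
      exact hch _
    · rw [hLL, List.isChain_map, List.isChain_range_succ]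
      intro t _ a ha b hb
      refine hlink t a ha b ?_
      simpa using hb
  · intro a ha b hb
    have e1 : LL.flatten.head? = (W 0).head? := by
      rw [hLL, List.range_succ_eq_map, List.map_cons, List.flatten_cons,
        List.head?_append_of_ne_nil _ (hne _)]
      simp
    have e2 : LL.flatten.getLast? = (W (k : ZMod (k + 1))).getLast? := by
      rw [hLL, List.range_succ, List.map_append, List.flatten_append]
      simp only [List.map_cons, List.map_nil, List.flatten_cons, List.flatten_nil, List.append_nil]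
      rw [List.getLast?_append_of_ne_nil _ (hne _)]
    rw [e1] at ha; rw [e2] at hb
    refine hlink k b hb a ?_
    have : (k : ZMod (k + 1)) + 1 = 0 := by exact_mod_cast ZMod.natCast_self (k + 1)
    rwa [this]

/-- The graph left after deleting the cycle (cycle vertices become isolated). -/
def Out (G : SimpleGraph V) {n : ℕ} (f : ZMod n → V) : SimpleGraph V where
  Adj a b := G.Adj a b ∧ a ∉ Set.range f ∧ b ∉ Set.range f
  symm := ⟨fun _ _ h => ⟨h.1.symm, h.2.2, h.2.1⟩⟩
  loopless := ⟨fun a h => G.loopless.1 a h.1⟩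

abbrev Comp (G : SimpleGraph V) {n : ℕ} (f : ZMod n → V) := (Out G f).ConnectedComponent

variable {G : SimpleGraph V} {n : ℕ} {f : ZMod n → V}

def Mem (v : V) (K : Comp G f) : Prop :=
  (Out G f).connectedComponentMk v = K ∧ v ∉ Set.range f

def Att (x : ZMod n) (K : Comp G f) : Prop := ∃ v, Mem v K ∧ G.Adj (f x) v

def Link2 (K : Comp G f) (x y : ZMod n) : Prop :=
  ∃ v w, v ≠ w ∧ Mem v K ∧ Mem w K ∧ G.Adj (f x) v ∧ G.Adj (f y) w

theorem Mem.step {v w : V} {K : Comp G f} (h : Mem v K) (ha : G.Adj v w)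
    (hw : w ∉ Set.range f) : Mem w K :=
  ⟨h.1 ▸ (ConnectedComponent.connectedComponentMk_eq_of_adj
    (G := Out G f) ⟨ha.symm, hw, h.2⟩), hw⟩

theorem Mem.unique {v : V} {K K' : Comp G f} (h : Mem v K) (h' : Mem v K') : K = K' :=
  h.1.symm.trans h'.1

/-- A path inside `K` from `v` to `w`. -/
def Seg (K : Comp G f) (v w : V) (l : List V) : Prop :=
  l.Nodup ∧ l.IsChain G.Adj ∧ (∀ u ∈ l, Mem u K) ∧ l.head? = some v ∧ l.getLast? = some w

theorem seg_exists {K : Comp G f} {v w : V} (hv : Mem v K) (hw : Mem w K) :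
    ∃ l, Seg K v w l := by
  classical
  have hr : (Out G f).Reachable v w := ConnectedComponent.exact (hv.1.trans hw.1.symm)
  obtain ⟨p, hp⟩ := hr.exists_isPath
  refine ⟨p.support, hp.support_nodup, p.isChain_adj_support.imp (fun _ _ h => h.1), ?_, ?_, ?_⟩
  · clear hp hw
    induction p with
    | nil => intro u hu; simp at hu; exact hu ▸ hv
    | cons h q ih =>
      intro u hu
      rw [Walk.support_cons, List.mem_cons] at hu
      rcases hu with rfl | hu
      · exact hv
      · exact ih (hv.step h.1 h.2.2) q.reachable u hu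
  · cases p <;> simp
  · rw [List.getLast?_eq_some_getLast p.support_ne_nil, Walk.getLast_support]

theorem Seg.ne_nil {K : Comp G f} {v w : V} {l : List V} (h : Seg K v w l) : l ≠ [] := by
  rintro rfl; simpa using h.2.2.2.1

theorem Seg.two_le {K : Comp G f} {v w : V} {l : List V} (h : Seg K v w l) (hvw : v ≠ w) :
    2 ≤ l.length := by
  obtain ⟨-, -, -, h1, h2⟩ := h
  match l, h1, h2 with
  | [], h1, _ => simp at h1
  | [a], h1, h2 => simp at h1 h2; exact absurd (h1.symm.trans h2) hvw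
  | _ :: _ :: _, _, _ => simp

end Pool.Agent.MP_ee574f_co

end

section

set_option autoImplicit false

namespace Pool.Agent.MP_ee574f_co

open SimpleGraph

variable {V : Type} {G : SimpleGraph V} {n : ℕ} {f : ZMod n → V}

theorem Long.neZero (h : Long G n f) : NeZero n := ⟨by have := h.hn; omega⟩

theorem Long.one_ne (h : Long G n f) : (1 : ZMod n) ≠ 0 := by
  have : Fact (1 < n) := ⟨by have := h.hn; omega⟩
  exact one_ne_zero

theorem Long.two_ne (h : Long G n f) : (2 : ZMod n) ≠ 0 := by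
  intro e
  have : ((2 : ℕ) : ZMod n) = 0 := by exact_mod_cast e
  have := Nat.le_of_dvd (by norm_num) ((ZMod.natCast_eq_zero_iff _ _).1 this)
  have := h.hn; omega

theorem Long.replace (h : Long G n f) (x : ZMod n) (l : List V) (hne : l ≠ []) (nd : l.Nodup)
    (hc : l.IsChain G.Adj) (hm : ∀ v ∈ l, v = f x ∨ v ∉ Set.range f)
    (h1 : ∀ a ∈ l.head?, G.Adj (f (x - 1)) a) (h2 : ∀ b ∈ l.getLast?, G.Adj b (f (x + 1))) :
    l.length ≤ 1 := by
  classical
  have := h.neZero
  have h1ne := h.one_ne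
  have key := h.lift n h.hn (fun i => if i = x then l else [f i]) ?_ ?_ ?_ ?_ ?_
  · have e : ∑ i : ZMod n, (if i = x then l else [f i]).length =
        ∑ i : ZMod n, (1 + if i = x then l.length - 1 else 0) := by
      refine Finset.sum_congr rfl fun i _ => ?_
      have := List.length_pos_of_ne_nil hne
      split_ifs
      · omega
      · simp
    rw [e, Finset.sum_add_distrib, Finset.sum_ite_eq'] at key
    simp at key; omega
  · intro i; split_ifs <;> simp [hne]
  · intro i; split_ifs <;> simp [nd]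
  · intro i; split_ifs <;> simp [hc]
  · intro i j hij v hv hv'
    split_ifs at hv hv' with a b b
    · exact hij (a.trans b.symm)
    · rw [List.mem_singleton] at hv'
      rcases hm v hv with e | e
      · exact b (h.inj (hv'.symm.trans e))
      · exact e ⟨j, hv'.symm⟩
    · rw [List.mem_singleton] at hv
      rcases hm v hv' with e | e
      · exact a (h.inj (hv.symm.trans e))
      · exact e ⟨i, hv.symm⟩
    · rw [List.mem_singleton] at hv hv'
      exact hij (h.inj (hv.symm.trans hv'))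
  · intro i a ha b hb
    split_ifs at ha hb with p q q
    · exact absurd (by rw [p] at q; simpa using q) h1ne
    · simp at hb; subst hb; subst p; exact h2 a ha
    · simp at ha; subst ha; have := h1 b hb; rwa [← q, add_sub_cancel_right] at this
    · simp at ha hb; subst ha; subst hb; exact h.adj i

/-- Consecutive cycle vertices do not attach to the same component. -/
theorem Long.not_att_succ (h : Long G n f) {x : ZMod n} {K : Comp G f} (h1 : Att x K)
    (h2 : Att (x + 1) K) : False := by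
  obtain ⟨v, hv, hxv⟩ := h1
  obtain ⟨w, hw, hxw⟩ := h2
  obtain ⟨l, hl⟩ := seg_exists hv hw
  have hne := hl.ne_nil
  obtain ⟨nd, hc, hm, hh, ht⟩ := hl
  have := h.replace x (f x :: l) (by simp) ?_ ?_ ?_ ?_ ?_
  · have := List.length_pos_of_ne_nil hne
    rw [List.length_cons] at *; omega
  · exact List.nodup_cons.2 ⟨fun e => (hm _ e).2 ⟨x, rfl⟩, nd⟩
  · rw [List.isChain_cons]
    exact ⟨fun y hy => by rw [hh] at hy; cases hy; exact hxv, hc⟩
  · intro u hu
    rcases List.mem_cons.1 hu with e | e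
    · exact Or.inl e
    · exact Or.inr (hm _ e).2
  · intro a ha; simp at ha; subst ha
    simpa using h.adj (x - 1)
  · intro b hb
    rw [List.getLast?_cons_of_ne_nil hne, ht] at hb
    cases hb; exact hxw.symm

theorem Long.not_link_two (h : Long G n f) {x : ZMod n} {K : Comp G f}
    (h1 : Link2 K (x - 1) (x + 1)) : False := by
  obtain ⟨v, w, hvw, hv, hw, hxv, hxw⟩ := h1
  obtain ⟨l, hl⟩ := seg_exists hv hw
  have h2 := hl.two_le hvw
  have hne := hl.ne_nil
  obtain ⟨nd, hc, hm, hh, ht⟩ := hl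
  have := h.replace x l hne nd hc (fun u hu => Or.inr (hm _ hu).2)
    (fun a ha => by rw [hh] at ha; cases ha; exact hxv)
    (fun b hb => by rw [ht] at hb; cases hb; exact hxw.symm)
  omega

/-- Parity-join lemma. -/
theorem tjoin {X Y : Type} [Fintype X] [Fintype Y] (E : X → Y → Prop) (free : X → Prop)
    (hfree : ∀ x, ∃ x', free x' ∧ Relation.EqvGen (fun a b => ∃ y, E a y ∧ E b y) x x') :
    ∃ J : X → Y → ZMod 2, (∀ x y, J x y ≠ 0 → E x y) ∧ (∀ y, ∑ x, J x y = 0) ∧
      ∀ x, ¬ free x → ∑ y, J x y = 1 := by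
  classical
  have h2 : ∀ a : ZMod 2, a + a = 0 := by decide
  let P : X → X → Prop := fun x x' => ∃ j : X → Y → ZMod 2, (∀ u y, j u y ≠ 0 → E u y) ∧
    (∀ y, ∑ u, j u y = 0) ∧ ∀ u, ∑ y, j u y = (if u = x then 1 else 0) + (if u = x' then 1 else 0)
  have hP : ∀ x x', Relation.EqvGen (fun a b => ∃ y, E a y ∧ E b y) x x' → P x x' := by
    intro x x' hr
    induction hr with
    | rel a b hab =>
      obtain ⟨y, ha, hb⟩ := hab
      refine ⟨fun u z => if z = y then (if u = a then 1 else 0) + (if u = b then 1 else 0) else 0,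
        ?_, ?_, ?_⟩
      · intro u z hz
        by_cases e : z = y
        · subst e
          by_cases e1 : u = a
          · exact e1 ▸ ha
          · by_cases e2 : u = b
            · exact e2 ▸ hb
            · simp [e1, e2] at hz
        · simp [e] at hz
      · intro z
        by_cases e : z = y
        · simp only [e, if_true, Finset.sum_add_distrib, Finset.sum_ite_eq', Finset.mem_univ]
          exact h2 1
        · simp [e]
      · intro u; simp
    | refl a => exact ⟨fun _ _ => 0, by simp, by simp, fun u => by simp [h2]⟩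
    | symm a b _ ih =>
      obtain ⟨j, a1, a2, a3⟩ := ih
      exact ⟨j, a1, a2, fun u => by rw [a3, add_comm]⟩
    | trans a b c _ _ ih1 ih2 =>
      obtain ⟨j, a1, a2, a3⟩ := ih1
      obtain ⟨j', b1, b2, b3⟩ := ih2
      refine ⟨fun u y => j u y + j' u y, ?_, ?_, ?_⟩
      · intro u y hy
        by_cases e : j u y = 0
        · exact b1 u y (by simpa [e] using hy)
        · exact a1 u y e
      · intro y; rw [Finset.sum_add_distrib, a2, b2, add_zero]
      · intro u
        rw [Finset.sum_add_distrib, a3, b3]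
        have := h2 (if u = b then 1 else 0)
        linear_combination this
  choose fr hfr hrel using hfree
  choose j j1 j2 j3 using fun x => hP x (fr x) (hrel x)
  refine ⟨fun u y => ∑ x, j x u y, ?_, ?_, ?_⟩
  · intro u y hy
    obtain ⟨x, -, hx⟩ := Finset.exists_ne_zero_of_sum_ne_zero hy
    exact j1 x u y hx
  · intro y
    rw [Finset.sum_comm]; simp [j2]
  · intro u hu
    rw [Finset.sum_comm]
    simp only [j3, Finset.sum_add_distrib, Finset.sum_ite_eq, Finset.mem_univ, if_true]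
    rw [Finset.sum_eq_zero, add_zero]
    intro x _
    rw [if_neg]
    rintro rfl
    exact hu (hfr x)

end Pool.Agent.MP_ee574f_co

end

section

set_option autoImplicit false

namespace Pool.Agent.MP_ee574f_co

open SimpleGraph Classical

variable {V : Type} {G : SimpleGraph V} {n : ℕ} {f : ZMod n → V}

/-- A path of at least 14 vertices inside `T` joining neighbours of `f x` and `f y`. -/
def Link (G : SimpleGraph V) {n : ℕ} (f : ZMod n → V) (T : V → Prop) (x y : ZMod n) : Prop :=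
  ∃ l : List V, l.Nodup ∧ l.IsChain G.Adj ∧ (∀ v ∈ l, T v) ∧ (∀ a ∈ l.head?, G.Adj (f x) a) ∧
    (∀ b ∈ l.getLast?, G.Adj (f y) b) ∧ 14 ≤ l.length

/-- Data of the auxiliary graph: sinks `A`, green edges `x - ρ (hs x)`, join edges `J`. -/
structure Dat2 (G : SimpleGraph V) {n : ℕ} (f : ZMod n → V) (P : Type) where
  A : ZMod n → Prop
  W : ZMod n → Prop
  gr : ZMod n → Prop
  hs : ZMod n → Comp G f
  ρ : Comp G f → ZMod n
  T : P → V → Prop
  J : ZMod n → P → Prop
  grA : ∀ x, gr x → ¬ A x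
  grAtt : ∀ x, gr x → Att x (hs x)
  rootA : ∀ x, gr x → A (ρ (hs x))
  rootAtt : ∀ x, gr x → Att (ρ (hs x)) (hs x)
  Tout : ∀ p v, T p v → v ∉ Set.range f
  Tdis : ∀ p p' v, T p v → T p' v → p = p'
  JLink : ∀ x y p, J x p → J y p → x ≠ y → Link G f (T p) x y
  Tsep : ∀ p v y, T p v → gr y → ¬ Mem v (hs y)
  Wgr : ∀ x, W x → ¬ gr x
  Wroot : ∀ x y, W x → gr y → ρ (hs y) ≠ x
  run : ∀ M : ZMod n → Prop, (∀ a, M a → A a) → ∀ a, M a → (A (a + 1) ∨ A (a - 1)) →
    ∃ x, W x ∧ ¬ M x ∧ (M (x + 1) ∨ M (x - 1)) ∧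
      a ∈ ({x + 1, x + 2, x + 3, x - 1, x - 2, x - 3} : Finset (ZMod n))

namespace Dat2

variable {P : Type} (D : Dat2 G f P)

def φ (x : ZMod n) : ZMod n := D.ρ (D.hs x)

def SAdj : ZMod n ⊕ P → ZMod n ⊕ P → Prop
  | .inl x, .inl y => y = x + 1 ∨ x = y + 1 ∨ (D.gr x ∧ y = D.φ x) ∨ (D.gr y ∧ x = D.φ y)
  | .inl x, .inr K => D.J x K
  | .inr K, .inl x => D.J x K
  | .inr _, .inr _ => False

theorem SAdj_symm {z p : ZMod n ⊕ P} (h : D.SAdj z p) : D.SAdj p z := by
  rcases z with x | K <;> rcases p with y | K' <;> simp only [SAdj] at h ⊢ <;> tauto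

def Own (z p : ZMod n ⊕ P) : Prop :=
  ∃ x, p = .inl x ∧ ((∃ K, z = .inr K) ∨ (D.gr x ∧ z = .inl (D.φ x)))

def End (z p : ZMod n ⊕ P) (e : V) : Prop :=
  (∃ x, p = .inl x ∧ D.Own z p ∧ G.Adj (f x) e) ∨ (¬ D.Own z p ∧ ∃ a, z = .inl a ∧ e = f a)

def Terr : ZMod n ⊕ P → V → Prop
  | .inl a, v => v = f a ∨ ∃ x, D.gr x ∧ D.φ x = a ∧ Mem v (D.hs x)
  | .inr K, v => D.T K v

def Dbl (z p q : ZMod n ⊕ P) : Prop :=
  ∃ x y, p = .inl x ∧ q = .inl y ∧ D.gr x ∧ D.gr y ∧ z = .inl (D.φ x) ∧ D.hs x = D.hs y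

theorem own_inl {a : ZMod n} {p : ZMod n ⊕ P} :
    D.Own (.inl a) p ↔ ∃ x, p = .inl x ∧ D.gr x ∧ D.φ x = a := by
  constructor
  · rintro ⟨x, rfl, ⟨K, hK⟩ | ⟨h1, h2⟩⟩
    · cases hK
    · exact ⟨x, rfl, h1, (Sum.inl.inj h2).symm⟩
  · rintro ⟨x, rfl, h1, rfl⟩
    exact ⟨x, rfl, Or.inr ⟨h1, rfl⟩⟩

theorem own_asymm {z p : ZMod n ⊕ P} (h : D.Own z p) : ¬ D.Own p z := by
  obtain ⟨x, rfl, h⟩ := h
  rw [own_inl]
  rintro ⟨y, rfl, hy, e⟩
  rcases h with ⟨K, hK⟩ | ⟨h1, h2⟩
  · cases hK
  · exact D.grA x h1 (e ▸ D.rootA y hy)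

theorem red_of_not_own {z p : ZMod n ⊕ P} (h : D.SAdj z p) (h1 : ¬ D.Own z p)
    (h2 : ¬ D.Own p z) : ∃ a b, z = .inl a ∧ p = .inl b ∧ (b = a + 1 ∨ a = b + 1) := by
  rcases z with x | K <;> rcases p with y | K' <;> simp only [SAdj] at h
  · rcases h with h | h | h | h
    · exact ⟨x, y, rfl, rfl, Or.inl h⟩
    · exact ⟨x, y, rfl, rfl, Or.inr h⟩
    · exact absurd (D.own_inl.2 ⟨x, rfl, h.1, h.2.symm⟩) h2
    · exact absurd (D.own_inl.2 ⟨y, rfl, h.1, h.2.symm⟩) h1
  · exact absurd ⟨x, rfl, Or.inl ⟨_, rfl⟩⟩ h2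
  · exact absurd ⟨y, rfl, Or.inl ⟨_, rfl⟩⟩ h1

theorem end_link (hL : Long G n f) {z p : ZMod n ⊕ P} {e e' : V} (h : D.SAdj z p)
    (h1 : D.End z p e) (h2 : D.End p z e') : G.Adj e e' := by
  rcases h1 with ⟨x, hx, o1, a1⟩ | ⟨o1, a, ha, rfl⟩
  · rcases h2 with ⟨y, -, o2, -⟩ | ⟨-, b, hb, rfl⟩
    · exact absurd o2 (D.own_asymm o1)
    · rw [hx] at hb; cases hb; exact a1.symm
  · rcases h2 with ⟨y, hy, o2, a2⟩ | ⟨o2, b, hb, rfl⟩
    · rw [ha] at hy; cases hy; exact a2
    · obtain ⟨a', b', e1, e2, hr⟩ := D.red_of_not_own h o1 o2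
      rw [ha] at e1; rw [hb] at e2; cases e1; cases e2
      rcases hr with rfl | rfl
      · exact hL.adj _
      · exact (hL.adj _).symm

theorem terr_disj (hL : Long G n f) {z z' : ZMod n ⊕ P} {v : V} (h : D.Terr z v)
    (h' : D.Terr z' v) : z = z' := by
  rcases z with a | K <;> rcases z' with b | K' <;> simp only [Terr] at h h'
  · rcases h with h | ⟨x, -, hx, m⟩ <;> rcases h' with h' | ⟨y, -, hy, m'⟩
    · rw [hL.inj (h.symm.trans h')]
    · exact absurd ⟨a, h.symm⟩ m'.2
    · exact absurd ⟨b, h'.symm⟩ m.2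
    · rw [← hx, ← hy, φ, φ, m.unique m']
  · rcases h with h | ⟨x, gx, -, m⟩
    · exact absurd ⟨a, h.symm⟩ (D.Tout _ _ h')
    · exact absurd m (D.Tsep _ _ x h' gx)
  · rcases h' with h' | ⟨x, gx, -, m⟩
    · exact absurd ⟨b, h'.symm⟩ (D.Tout _ _ h)
    · exact absurd m (D.Tsep _ _ x h gx)
  · rw [D.Tdis _ _ _ h h']

theorem half (a : ZMod n) (p : ZMod n ⊕ P) :
    ∃ l : List V, l.Nodup ∧ (l ++ [f a]).IsChain G.Adj ∧
      (∀ v ∈ l, ∃ x, p = .inl x ∧ D.gr x ∧ D.φ x = a ∧ Mem v (D.hs x)) ∧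
      (∀ e ∈ (l ++ [f a]).head?, D.End (.inl a) p e) ∧
      (if D.Own (.inl a) p then 1 else 0) ≤ l.length := by
  by_cases o : D.Own (.inl a) p
  · obtain ⟨x, rfl, gx, hx⟩ := D.own_inl.1 o
    obtain ⟨v, hv, av⟩ := D.grAtt x gx
    obtain ⟨w, hw, aw⟩ := D.rootAtt x gx
    obtain ⟨l, hl⟩ := seg_exists hv hw
    have hne := hl.ne_nil
    obtain ⟨nd, hc, hm, hh, ht⟩ := hl
    refine ⟨l, nd, hc.append (by simp) ?_, fun u hu => ⟨x, rfl, gx, hx, hm u hu⟩, ?_, ?_⟩
    · intro b hb c hc'
      rw [ht] at hb; cases hb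
      simp at hc'; subst hc'
      exact hx ▸ aw.symm
    · intro e he
      rw [List.head?_append_of_ne_nil _ hne, hh] at he
      cases he
      exact Or.inl ⟨x, rfl, o, av⟩
    · rw [if_pos o]; exact List.length_pos_of_ne_nil hne
  · refine ⟨[], by simp, by simp, by simp, ?_, by simp [o]⟩
    intro e he
    simp at he; subst he
    exact Or.inr ⟨o, a, rfl, rfl⟩

/-- number of edges owned -/
noncomputable def own2 (z p q : ZMod n ⊕ P) : ℕ :=
  (if D.Own z p then 1 else 0) + (if D.Own z q then 1 else 0)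

theorem piece {z p q : ZMod n ⊕ P} (hp : D.SAdj z p) (hq : D.SAdj z q) (hpq : p ≠ q) :
    ∃ l : List V, l ≠ [] ∧ l.Nodup ∧ l.IsChain G.Adj ∧ (∀ v ∈ l, D.Terr z v) ∧
      (∀ e ∈ l.head?, D.End z p e) ∧ (∀ e ∈ l.getLast?, D.End z q e) ∧
      (if z.isLeft then 1 + (if D.Dbl z p q then 0 else D.own2 z p q) else 14) ≤ l.length := by
  rcases z with a | K
  · by_cases hd : D.Dbl (.inl a) p q
    · have hd' := hd
      obtain ⟨x, y, rfl, rfl, gx, gy, e, hxy⟩ := hd'
      have e' : D.φ x = a := (Sum.inl.inj e).symm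
      have e'' : D.φ y = a := by rw [← e', φ, φ, hxy]
      obtain ⟨v, hv, av⟩ := D.grAtt x gx
      obtain ⟨w, hw, aw⟩ := D.grAtt y gy
      obtain ⟨l, hl⟩ := seg_exists hv (hxy ▸ hw)
      have hne := hl.ne_nil
      obtain ⟨nd, hc, hm, hh, ht⟩ := hl
      refine ⟨l, hne, nd, hc, fun u hu => Or.inr ⟨x, gx, e', hm u hu⟩, ?_, ?_, ?_⟩
      · intro b hb; rw [hh] at hb; cases hb
        exact Or.inl ⟨x, rfl, D.own_inl.2 ⟨x, rfl, gx, e'⟩, av⟩
      · intro b hb; rw [ht] at hb; cases hb
        exact Or.inl ⟨y, rfl, D.own_inl.2 ⟨y, rfl, gy, e''⟩, aw⟩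
      · rw [if_pos hd]; have := List.length_pos_of_ne_nil hne; simp; omega
    · obtain ⟨l1, n1, c1, m1, e1, k1⟩ := D.half a p
      obtain ⟨l2, n2, c2, m2, e2, k2⟩ := D.half a q
      have hrev : f a :: l2.reverse = (l2 ++ [f a]).reverse := by simp
      refine ⟨l1 ++ f a :: l2.reverse, by simp, ?_, ?_, ?_, ?_, ?_, ?_⟩
      · rw [List.nodup_append]
        refine ⟨n1, List.nodup_cons.2 ⟨fun h => ?_, List.nodup_reverse.2 n2⟩, ?_⟩
        · obtain ⟨x, -, -, -, m⟩ := m2 _ (List.mem_reverse.1 h)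
          exact m.2 ⟨a, rfl⟩
        · intro u hu w hw huw
          subst huw
          obtain ⟨x, hx, gx, ex, m⟩ := m1 _ hu
          rcases List.mem_cons.1 hw with h | h
          · exact m.2 ⟨a, h.symm⟩
          · obtain ⟨y, hy, gy, -, m'⟩ := m2 _ (List.mem_reverse.1 h)
            exact hd ⟨x, y, hx, hy, gx, gy, by rw [ex], m.unique m'⟩
      · rw [List.isChain_split]
        refine ⟨c1, ?_⟩
        rw [hrev, List.isChain_reverse]
        exact c2.imp fun _ _ h => h.symm
      · intro u hu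
        rcases List.mem_append.1 hu with h | h
        · obtain ⟨x, -, gx, ex, m⟩ := m1 _ h
          exact Or.inr ⟨x, gx, ex, m⟩
        · rcases List.mem_cons.1 h with h | h
          · exact Or.inl h
          · obtain ⟨x, -, gx, ex, m⟩ := m2 _ (List.mem_reverse.1 h)
            exact Or.inr ⟨x, gx, ex, m⟩
      · intro e he
        refine e1 e ?_
        cases l1 <;> simpa using he
      · intro e he
        refine e2 e ?_
        rw [List.getLast?_append_of_ne_nil _ (by simp), hrev, List.getLast?_reverse] at he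
        exact he
      · rw [if_neg hd, own2]
        simp only [Sum.isLeft_inl, if_true, List.length_append, List.length_cons,
          List.length_reverse]
        omega
  · rcases p with x | K1
    swap; · exact hp.elim
    rcases q with y | K2
    swap; · exact hq.elim
    have hxy : x ≠ y := fun e => hpq (by rw [e])
    obtain ⟨l, nd, hc, hm, hh, ht, h14⟩ := D.JLink x y K hp hq hxy
    refine ⟨l, by rintro rfl; simp at h14, nd, hc, hm, ?_, ?_, by simpa using h14⟩
    · intro b hb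
      exact Or.inl ⟨x, rfl, ⟨x, rfl, Or.inl ⟨K, rfl⟩⟩, hh b hb⟩
    · intro b hb
      exact Or.inl ⟨y, rfl, ⟨y, rfl, Or.inl ⟨K, rfl⟩⟩, ht b hb⟩

end Dat2

end Pool.Agent.MP_ee574f_co

end
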