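import Pool.Agent.Mg.Fee574f.G2fbfe5
import Pool.Agent.Mg.Fee574f.Gba6616
import Mathlib

section

set_option autoImplicit false

namespace Pool.Agent.MP_ee574f_co

open SimpleGraph Classical Finset

variable {V : Type} {G : SimpleGraph V} {n : ℕ} {f : ZMod n → V}

namespace Dat2

variable {P : Type} (D : Dat2 G f P) {m : ℕ} (g : ZMod m → ZMod n ⊕ P)

theorem Dbl.own {D : Dat2 G f P} {z p q : ZMod n ⊕ P} (h : D.Dbl z p q) :
    D.Own z p ∧ D.Own z q := by
  obtain ⟨x, y, rfl, rfl, gx, gy, rfl, e⟩ := h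
  exact ⟨D.own_inl.2 ⟨x, rfl, gx, rfl⟩, D.own_inl.2 ⟨y, rfl, gy, by rw [φ, φ, e]⟩⟩

def DblAt (i : ZMod m) : Prop := D.Dbl (g i) (g (i - 1)) (g (i + 1))

def DD (a : ZMod n) : Prop := ∃ i, g i = .inl a ∧ D.DblAt g i

def Miss (a : ZMod n) : Prop := (¬ ∃ i, g i = .inl a) ∨ D.DD g a

theorem DD_A {a : ZMod n} (h : D.DD g a) : D.A a := by
  obtain ⟨i, hi, x, y, -, -, gx, -, e, -⟩ := h
  rw [hi] at e; cases e; exact D.rootA x gx

variable {g}

theorem nb (ginj : Function.Injective g) (gadj : ∀ i, D.SAdj (g i) (g (i + 1)))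
    {i j : ZMod m} {x : ZMod n} (hi : g i = .inl x) (hx : ∀ y, D.gr y → D.φ y ≠ x)
    (hj : j = i + 1 ∨ j = i - 1) :
    D.Own (g j) (g i) ∨ ∃ b, g j = .inl b ∧ (b = x + 1 ∨ b = x - 1) ∧ ¬ D.Miss g b := by
  by_cases o : D.Own (g j) (g i)
  · exact Or.inl o
  right
  have hadj : D.SAdj (g i) (g j) := by
    rcases hj with rfl | rfl
    · exact gadj i
    · have := gadj (i - 1); rw [sub_add_cancel] at this; exact D.SAdj_symm this
  have o' : ¬ D.Own (g i) (g j) := by
    rw [hi, own_inl]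
    rintro ⟨y, -, gy, e⟩
    exact hx y gy e
  obtain ⟨a, b, e1, e2, hr⟩ := D.red_of_not_own hadj o' o
  rw [hi] at e1; cases e1
  refine ⟨b, e2, hr.imp id (fun h => by rw [h]; ring), ?_⟩
  rintro (h | ⟨k, hk, hd⟩)
  · exact h ⟨j, e2⟩
  · have : k = j := ginj (hk.trans e2.symm)
    subst this
    rcases hj with rfl | rfl
    · have := hd.own.1; rw [add_sub_cancel_right] at this; exact o this
    · have := hd.own.2; rw [sub_add_cancel] at this; exact o this

theorem nb2 (hm : 3 ≤ m) (ginj : Function.Injective g)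
    (gadj : ∀ i, D.SAdj (g i) (g (i + 1))) (i : ZMod m) :
    (if ∃ x, g i = .inl x ∧ ¬ D.A x ∧ D.Miss g (x + 1) then 1 else 0) +
      (if ∃ x, g i = .inl x ∧ ¬ D.A x ∧ D.Miss g (x - 1) then 1 else 0) ≤
      (if D.Own (g (i - 1)) (g i) then 1 else 0) + (if D.Own (g (i + 1)) (g i) then 1 else 0) := by
  have h2 : (2 : ZMod m) ≠ 0 := by
    intro e
    have : ((2 : ℕ) : ZMod m) = 0 := by exact_mod_cast e
    have := Nat.le_of_dvd (by norm_num) ((ZMod.natCast_eq_zero_iff _ _).1 this)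
    omega
  have hne : g (i - 1) ≠ g (i + 1) := fun e => h2 (by linear_combination -(ginj e))
  by_cases h0 : ∃ x, g i = .inl x ∧ ¬ D.A x
  swap
  · rw [if_neg (fun ⟨x, a, b, _⟩ => h0 ⟨x, a, b⟩), if_neg (fun ⟨x, a, b, _⟩ => h0 ⟨x, a, b⟩)]
    omega
  obtain ⟨x, hi, hx⟩ := h0
  have e1 : (∃ y, g i = .inl y ∧ ¬ D.A y ∧ D.Miss g (y + 1)) ↔ D.Miss g (x + 1) :=
    ⟨fun ⟨y, a, _, c⟩ => by rw [hi] at a; cases a; exact c, fun h => ⟨x, hi, hx, h⟩⟩
  have e2 : (∃ y, g i = .inl y ∧ ¬ D.A y ∧ D.Miss g (y - 1)) ↔ D.Miss g (x - 1) :=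
    ⟨fun ⟨y, a, _, c⟩ => by rw [hi] at a; cases a; exact c, fun h => ⟨x, hi, hx, h⟩⟩
  simp only [e1, e2]
  have hx' : ∀ y, D.gr y → D.φ y ≠ x := fun y gy e => hx (e ▸ D.rootA y gy)
  rcases D.nb ginj gadj hi hx' (Or.inr rfl) with p | ⟨b, hb, rb, mb⟩ <;>
    rcases D.nb ginj gadj hi hx' (Or.inl rfl) with q | ⟨c, hc, rc, mc⟩
  · rw [if_pos p, if_pos q]; split_ifs <;> omega
  · rw [if_pos p]
    rcases rc with rfl | rfl <;> rw [if_neg mc] <;> split_ifs <;> omega
  · rw [if_pos q]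
    rcases rb with rfl | rfl <;> rw [if_neg mb] <;> split_ifs <;> omega
  · have hbc : b ≠ c := fun e => hne (by rw [hb, hc, e])
    rcases rb with rfl | rfl <;> rcases rc with rfl | rc
    · exact absurd rfl hbc
    · subst rc; rw [if_neg mb, if_neg mc]; omega
    · rw [if_neg mb, if_neg mc]; omega
    · exact absurd rc.symm hbc

theorem jend (hm : 3 ≤ m) (ginj : Function.Injective g)
    (gadj : ∀ i, D.SAdj (g i) (g (i + 1))) {i : ZMod m} {x : ZMod n} (hi : g i = .inl x)
    (hx : D.W x) (hM : D.Miss g (x + 1) ∨ D.Miss g (x - 1)) :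
    ¬ (g (i - 1)).isLeft ∨ ¬ (g (i + 1)).isLeft := by
  have h2 : (2 : ZMod m) ≠ 0 := by
    intro e
    have : ((2 : ℕ) : ZMod m) = 0 := by exact_mod_cast e
    have := Nat.le_of_dvd (by norm_num) ((ZMod.natCast_eq_zero_iff _ _).1 this)
    omega
  have hne : g (i - 1) ≠ g (i + 1) := fun e => h2 (by linear_combination -(ginj e))
  have hx' : ∀ y, D.gr y → D.φ y ≠ x := fun y gy => D.Wroot x y hx gy
  have ho : ∀ z, D.Own z (g i) → ¬ z.isLeft := by
    rintro z ⟨y, e, ⟨K, rfl⟩ | ⟨h, -⟩⟩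
    · simp
    · rw [hi] at e; cases e; exact absurd h (D.Wgr _ hx)
  rcases D.nb ginj gadj hi hx' (Or.inr rfl) with p | ⟨b, hb, rb, mb⟩
  · exact Or.inl (ho _ p)
  rcases D.nb ginj gadj hi hx' (Or.inl rfl) with q | ⟨c, hc, rc, mc⟩
  · exact Or.inr (ho _ q)
  have hbc : b ≠ c := fun e => hne (by rw [hb, hc, e])
  exfalso
  rcases rb with rfl | rfl <;> rcases rc with rfl | rc
  · exact hbc rfl
  · subst rc; exact hM.elim mb mc
  · exact hM.elim mc mb
  · exact hbc rc.symm

theorem miss_A (gcov : ∀ x, ¬ D.A x → ∃ i, g i = .inl x) (a : ZMod n) (h : D.Miss g a) :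
    D.A a := by
  rcases h with h | h
  · by_contra hh; exact h (gcov a hh)
  · exact D.DD_A g h

def Iso (a : ZMod n) : Prop := ¬ D.A (a + 1) ∧ ¬ D.A (a - 1)

theorem miss_le [NeZero m] [NeZero n] (gcov : ∀ x, ¬ D.A x → ∃ i, g i = .inl x) (c : ZMod n)
    (hc : ∀ a, D.Iso a → ¬ D.A (a - c)) :
    (univ.filter (fun a => D.Miss g a ∧ D.Iso a)).card ≤
      ∑ i, (if ∃ x, g i = .inl x ∧ ¬ D.A x ∧ D.Miss g (x + c) then 1 else 0) := by
  rw [← card_filter]
  have : ∀ a, ∃ i, D.Iso a → g i = .inl (a - c) := by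
    intro a
    by_cases h : D.Iso a
    · obtain ⟨i, hi⟩ := gcov _ (hc a h); exact ⟨i, fun _ => hi⟩
    · exact ⟨0, fun h' => absurd h' h⟩
  choose ι hι using this
  refine card_le_card_of_injOn ι ?_ ?_
  · intro a ha
    have ha' := (mem_filter.1 (mem_coe.1 ha)).2
    exact mem_coe.2 (mem_filter.2 ⟨mem_univ _, a - c, hι a ha'.2, hc a ha'.2,
      by rw [sub_add_cancel]; exact ha'.1⟩)
  · intro a ha b hb e
    have h1 := hι a (mem_filter.1 (mem_coe.1 ha)).2.2
    have h2 := hι b (mem_filter.1 (mem_coe.1 hb)).2.2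
    rw [e, h2] at h1
    have := Sum.inl.inj h1
    linear_combination -this

theorem miss_two [NeZero m] [NeZero n] (hm : 3 ≤ m) (ginj : Function.Injective g)
    (gadj : ∀ i, D.SAdj (g i) (g (i + 1))) (gcov : ∀ x, ¬ D.A x → ∃ i, g i = .inl x) :
    (univ.filter (fun a => D.Miss g a ∧ ¬ D.Iso a)).card ≤
      12 * ∑ i, (if (g i).isLeft then 0 else 1) := by
  let w : ZMod n ⊕ P → Finset (ZMod n) := fun z =>
    z.elim (fun x => {x + 1, x + 2, x + 3, x - 1, x - 2, x - 3}) (fun _ => ∅)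
  have hw : ∀ z, (w z).card ≤ 6 := by
    rintro (x | p)
    · exact card_le_six
    · simp [w]
  have hsub : univ.filter (fun a => D.Miss g a ∧ ¬ D.Iso a) ⊆
      (univ.filter (fun i => ¬ (g i).isLeft)).biUnion (fun i => w (g (i + 1)) ∪ w (g (i - 1))) := by
    intro a ha
    obtain ⟨h1, h2⟩ := (mem_filter.1 ha).2
    obtain ⟨x, hx, hm', hM, hax⟩ := D.run (D.Miss g) (D.miss_A gcov) a h1
      (by by_contra h; exact h2 (not_or.1 h))
    obtain ⟨i, hi⟩ : ∃ i, g i = .inl x := by by_contra h; exact hm' (Or.inl h)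
    rcases D.jend hm ginj gadj hi hx hM with h | h
    · refine mem_biUnion.2 ⟨i - 1, mem_filter.2 ⟨mem_univ _, h⟩, mem_union_left _ ?_⟩
      rw [sub_add_cancel, hi]; exact hax
    · refine mem_biUnion.2 ⟨i + 1, mem_filter.2 ⟨mem_univ _, h⟩, mem_union_right _ ?_⟩
      rw [add_sub_cancel_right, hi]; exact hax
  refine (card_le_card hsub).trans ((card_biUnion_le_card_mul _ _ 12 fun i _ => ?_).trans ?_)
  · exact (card_union_le _ _).trans (by have := hw (g (i + 1)); have := hw (g (i - 1)); omega)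
  · rw [mul_comm, card_filter]
    refine Nat.mul_le_mul_left _ (sum_le_sum fun i _ => ?_)
    split_ifs <;> omega

theorem count (hL : Long G n f) [NeZero m] (hm : 3 ≤ m) (ginj : Function.Injective g)
    (gadj : ∀ i, D.SAdj (g i) (g (i + 1))) (gcov : ∀ x, ¬ D.A x → ∃ i, g i = .inl x) :
    (∀ i, ¬ D.DblAt g i → D.own2 (g i) (g (i - 1)) (g (i + 1)) = 0) ∧
      ∀ a, D.Miss g a → D.Iso a := by
  have := hL.neZero
  have h2 : (2 : ZMod m) ≠ 0 := by
    intro e
    have : ((2 : ℕ) : ZMod m) = 0 := by exact_mod_cast e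
    have := Nat.le_of_dvd (by norm_num) ((ZMod.natCast_eq_zero_iff _ _).1 this)
    omega
  have hp : ∀ i, D.SAdj (g i) (g (i - 1)) := fun i => by
    have := gadj (i - 1); rw [sub_add_cancel] at this; exact D.SAdj_symm this
  choose W w1 w2 w3 w4 w5 w6 w7 using fun i => D.piece (hp i) (gadj i)
    (fun e => h2 (by linear_combination -(ginj e)))
  have hsum := hL.lift m hm W w1 w2 w3
    (fun i j hij v a b => hij (ginj (D.terr_disj hL (w4 i v a) (w4 j v b))))
    (fun i a ha b hb => D.end_link hL (gadj i) (w6 i a ha)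
      (by have := w5 (i + 1) b hb; rwa [add_sub_cancel_right] at this))
  set r : ZMod m → ℕ := fun i => if (g i).isLeft then
    (if D.DblAt g i then 0 else D.own2 (g i) (g (i - 1)) (g (i + 1))) else 0 with hr
  have s1 : ∑ i, (if (g i).isLeft then 1 else 0) + ∑ i, r i +
      14 * ∑ i, (if (g i).isLeft then 0 else 1) ≤ n := by
    rw [mul_sum, ← sum_add_distrib, ← sum_add_distrib]
    refine (sum_le_sum fun i _ => le_trans ?_ (w7 i)).trans hsum
    by_cases hd : D.DblAt g i
    · have hd' : D.Dbl (g i) (g (i - 1)) (g (i + 1)) := hd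
      simp only [hr, if_pos hd, if_pos hd']
      split_ifs <;> omega
    · have hd' : ¬ D.Dbl (g i) (g (i - 1)) (g (i + 1)) := hd
      simp only [hr, if_neg hd, if_neg hd']
      split_ifs <;> omega
  have s0 := D.miss_two hm ginj gadj gcov
  have s00 : (univ.filter (fun a => D.Miss g a ∧ D.Iso a)).card +
      (univ.filter (fun a => D.Miss g a ∧ ¬ D.Iso a)).card = (univ.filter (D.Miss g)).card := by
    rw [← filter_filter, ← filter_filter, card_filter_add_card_filter_not]
  -- on-cycle vertices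
  have s2 : (univ.filter (fun a : ZMod n => ∃ i, g i = .inl a)).card ≤
      ∑ i, (if (g i).isLeft then 1 else 0) := by
    rw [← card_filter]
    have : ∀ a : ZMod n, ∃ i, (∃ i, g i = .inl a) → g i = .inl a := by
      intro a
      by_cases h : ∃ i, g i = .inl a
      · obtain ⟨i, hi⟩ := h; exact ⟨i, fun _ => hi⟩
      · exact ⟨0, fun h' => absurd h' h⟩
    choose ι hι using this
    refine card_le_card_of_injOn ι ?_ ?_
    · intro a ha
      have := hι a (mem_filter.1 (mem_coe.1 ha)).2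
      exact mem_coe.2 (mem_filter.2 ⟨mem_univ _, by rw [this]; rfl⟩)
    · intro a ha b hb e
      have h1 := hι a (mem_filter.1 (mem_coe.1 ha)).2
      have h2 := hι b (mem_filter.1 (mem_coe.1 hb)).2
      rw [e, h2] at h1
      exact (Sum.inl.inj h1).symm
  have s3 : (univ.filter (fun a : ZMod n => ∃ i, g i = .inl a)).card +
      (univ.filter (fun a : ZMod n => ¬ ∃ i, g i = .inl a)).card = n := by
    rw [card_filter_add_card_filter_not, card_univ, ZMod.card]
  have s4 : (univ.filter (D.Miss g)).card =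
      (univ.filter (fun a : ZMod n => ¬ ∃ i, g i = .inl a)).card + (univ.filter (D.DD g)).card := by
    rw [← card_union_of_disjoint]
    · congr 1; ext a; simp [Miss]
    · rw [disjoint_filter]
      rintro a - h ⟨i, hi, -⟩; exact h ⟨i, hi⟩
  have s5 := D.miss_le gcov 1 (fun a ha => ha.2)
  have s6 := D.miss_le gcov (-1) (fun a ha => by rw [sub_neg_eq_add]; exact ha.1)
  simp only [← sub_eq_add_neg] at s6
  have s7 := sum_le_sum (s := univ) fun i _ => D.nb2 hm ginj gadj i
  rw [sum_add_distrib, sum_add_distrib] at s7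
  have s7' := (add_le_add s5 s6).trans (by convert s7)
  have s8 : ∑ i, (if D.Own (g (i - 1)) (g i) then 1 else 0) =
      ∑ i, (if D.Own (g i) (g (i + 1)) then 1 else 0) := by
    rw [← Equiv.sum_comp (Equiv.addRight (1 : ZMod m))]; simp
  have s9 : ∑ i, (if D.Own (g (i + 1)) (g i) then 1 else 0) =
      ∑ i, (if D.Own (g i) (g (i - 1)) then 1 else 0) := by
    rw [← Equiv.sum_comp (Equiv.subRight (1 : ZMod m))]; simp
  have s10 : ∑ i, (if D.Own (g i) (g (i - 1)) then 1 else 0) +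
      ∑ i, (if D.Own (g i) (g (i + 1)) then 1 else 0) ≤
      ∑ i, r i + 2 * ∑ i, (if D.DblAt g i then 1 else 0) +
        2 * ∑ i, (if (g i).isLeft then 0 else 1) := by
    rw [mul_sum, mul_sum, ← sum_add_distrib, ← sum_add_distrib, ← sum_add_distrib]
    refine sum_le_sum fun i _ => ?_
    simp only [hr, own2]
    split_ifs <;> omega
  have s11 : ∑ i, (if D.DblAt g i then 1 else 0) ≤ (univ.filter (D.DD g)).card := by
    rw [← card_filter]
    refine card_le_card_of_injOn (fun i => (g i).elim id (fun _ => 0)) ?_ ?_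
    · intro i hi
      have hd := (mem_filter.1 (mem_coe.1 hi)).2
      obtain ⟨x, y, -, -, -, -, e, -⟩ := id hd
      exact mem_coe.2 (mem_filter.2 ⟨mem_univ _, i, by simp [e], hd⟩)
    · intro i hi j hj e
      obtain ⟨x, -, -, -, -, -, e1, -⟩ := (mem_filter.1 (mem_coe.1 hi)).2
      obtain ⟨y, -, -, -, -, -, e2, -⟩ := (mem_filter.1 (mem_coe.1 hj)).2
      apply ginj
      simp only [e1, e2, Sum.elim_inl, id] at e
      rw [e1, e2, e]
  have s12 : ∑ i, r i = 0 := by omega
  have s13 : ∑ i, (if (g i).isLeft then 0 else 1) = 0 := by omega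
  have s14 : (univ.filter (fun a => D.Miss g a ∧ ¬ D.Iso a)).card = 0 := by omega
  refine ⟨fun i hi => ?_, fun a ha => ?_⟩
  · have h1 := (sum_eq_zero_iff.1 s12) i (mem_univ _)
    have h2 := (sum_eq_zero_iff.1 s13) i (mem_univ _)
    have h3 : (g i).isLeft := by by_contra h; simp [h] at h2
    simpa [hr, hi, h3] using h1
  · by_contra h
    have : a ∈ univ.filter (fun a => D.Miss g a ∧ ¬ D.Iso a) := mem_filter.2 ⟨mem_univ _, ha, h⟩
    rw [card_eq_zero.1 s14] at this
    simp at this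

theorem own_dbl (hL : Long G n f) [NeZero m] (hm : 3 ≤ m) (ginj : Function.Injective g)
    (gadj : ∀ i, D.SAdj (g i) (g (i + 1))) (gcov : ∀ x, ¬ D.A x → ∃ i, g i = .inl x)
    {i j : ZMod m} (hj : j = i + 1 ∨ j = i - 1) (o : D.Own (g j) (g i)) : D.DblAt g j := by
  by_contra hd
  have := (D.count hL hm ginj gadj gcov).1 j hd
  rcases hj with rfl | rfl
  · simp [own2, o] at this
  · simp [own2, o] at this

/-- closed sets of sinks -/
def Closed (S : ZMod n → Prop) : Prop :=
  ∀ a, S a → D.A a ∧ ∀ x, (x = a + 1 ∨ x = a - 1) → D.gr x ∧ S (D.φ x)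

theorem closed_DD (hL : Long G n f) [NeZero m] (hm : 3 ≤ m) (ginj : Function.Injective g)
    (gadj : ∀ i, D.SAdj (g i) (g (i + 1))) (gcov : ∀ x, ¬ D.A x → ∃ i, g i = .inl x) :
    D.Closed (D.DD g) := by
  intro a ha
  have hA := D.DD_A g ha
  refine ⟨hA, fun x hx => ?_⟩
  have hxA : ¬ D.A x := by
    have hI := (D.count hL hm ginj gadj gcov).2 a (Or.inr ha)
    rcases hx with rfl | rfl
    · exact hI.1
    · exact hI.2
  obtain ⟨i, hi⟩ := gcov x hxA
  have h2 := D.nb2 hm ginj gadj i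
  have key : ∃ j, (j = i + 1 ∨ j = i - 1) ∧ D.Own (g j) (g i) := by
    by_contra hno
    push Not at hno
    rw [if_neg (hno _ (Or.inr rfl)), if_neg (hno _ (Or.inl rfl))] at h2
    rcases hx with rfl | rfl
    · rw [if_pos (c := ∃ x, g i = .inl x ∧ ¬ D.A x ∧ D.Miss g (x - 1))
        ⟨_, hi, hxA, Or.inr (by rwa [add_sub_cancel_right])⟩] at h2
      omega
    · rw [if_pos (c := ∃ x, g i = .inl x ∧ ¬ D.A x ∧ D.Miss g (x + 1))
        ⟨_, hi, hxA, Or.inr (by rwa [sub_add_cancel])⟩] at h2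
      omega
  obtain ⟨j, hj, o⟩ := key
  have hd := D.own_dbl hL hm ginj gadj gcov hj o
  obtain ⟨y, -, -, -, -, -, e, -⟩ := id hd
  rw [e, own_inl] at o
  obtain ⟨x', e', gx, ex⟩ := o
  rw [hi] at e'; cases e'
  exact ⟨gx, j, by rw [e, ex], hd⟩

theorem exists_DD (hL : Long G n f) [NeZero m] (hm : 3 ≤ m) (ginj : Function.Injective g)
    (gadj : ∀ i, D.SAdj (g i) (g (i + 1))) (gcov : ∀ x, ¬ D.A x → ∃ i, g i = .inl x)
    (i : ZMod m) (hi : ¬ ∃ a b, g i = .inl a ∧ g (i + 1) = .inl b ∧ (b = a + 1 ∨ a = b + 1)) :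
    ∃ a, D.DD g a := by
  have : ∃ j, D.DblAt g j := by
    by_contra hno
    push Not at hno
    refine hi (D.red_of_not_own (gadj i) (fun o => hno i ?_) (fun o => hno (i + 1) ?_))
    · exact D.own_dbl hL hm ginj gadj gcov (i := i + 1) (Or.inr (by ring)) o
    · exact D.own_dbl hL hm ginj gadj gcov (Or.inl rfl) o
  obtain ⟨j, hd⟩ := this
  obtain ⟨y, -, -, -, -, -, e, -⟩ := id hd
  exact ⟨_, j, e, hd⟩

end Dat2

end Pool.Agent.MP_ee574f_co

end

section

set_option autoImplicit false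

namespace Pool.Agent.MP_ee574f_co

open SimpleGraph Classical Finset

variable {V : Type} {G : SimpleGraph V} {n : ℕ} {f : ZMod n → V}

namespace Dat2

variable {P : Type} (D : Dat2 G f P)

theorem φ_ne (hL : Long G n f) {x : ZMod n} (h : D.gr x) : D.φ x ≠ x + 1 ∧ D.φ x ≠ x - 1 := by
  have h1 := D.grAtt x h
  have h2 : Att (D.φ x) (D.hs x) := D.rootAtt x h
  refine ⟨fun e => hL.not_att_succ h1 (e ▸ h2), fun e => ?_⟩
  rw [e] at h2
  exact hL.not_att_succ h2 (by rwa [sub_add_cancel])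

theorem no_closed (hL : Long G n f) (k : ℕ) :
    ∀ M : Finset (ZMod n), M.card = k → D.Closed (· ∈ M) → M = ∅ := by
  have := hL.neZero
  induction k using Nat.strong_induction_on with
  | _ k ih =>
  intro M hk hM
  by_contra hne
  obtain ⟨a, ha⟩ := nonempty_iff_ne_empty.2 hne
  have hgr : ∀ i, (i + 1 ∈ M ∨ i - 1 ∈ M) → D.gr i ∧ D.φ i ∈ M := by
    rintro i (h | h)
    · exact (hM _ h).2 i (Or.inr (by ring))
    · exact (hM _ h).2 i (Or.inl (by ring))
  obtain ⟨g0, ginj, g00, g01, gstep, t, ht⟩ := thomassen n hL.hn M D.φ a ha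
    (fun i hi h => D.grA _ ((hM i hi).2 _ (Or.inl rfl)).1 (hM _ h).1)
    (fun i hi => ⟨(hgr i hi).2, D.φ_ne hL (hgr i hi).1⟩)
  let g : ZMod n → ZMod n ⊕ P := fun i => .inl (g0 i)
  have ginj' : Function.Injective g := fun i j e => ginj (Sum.inl.inj e)
  have gadj : ∀ i, D.SAdj (g i) (g (i + 1)) := by
    intro i
    rcases gstep i with h | h | h | h
    · exact Or.inl h
    · exact Or.inr (Or.inl (by rw [h]; ring))
    · exact Or.inr (Or.inr (Or.inl ⟨(hgr _ h.1).1, h.2⟩))
    · exact Or.inr (Or.inr (Or.inr ⟨(hgr _ h.1).1, h.2⟩))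
  have gcov : ∀ x, ¬ D.A x → ∃ i, g i = .inl x := fun x _ => by
    obtain ⟨i, hi⟩ := Finite.injective_iff_surjective.1 ginj x
    exact ⟨i, by simp [g, hi]⟩
  have hcl := D.closed_DD hL hL.hn ginj' gadj gcov
  obtain ⟨b0, hb0⟩ := D.exists_DD hL hL.hn ginj' gadj gcov t (by
    rintro ⟨u, v, e1, e2, h⟩
    cases e1; cases e2
    rcases h with h | h
    · exact ht.1 h
    · exact ht.2 (by rw [h]; ring))
  have hsub : ∀ b, D.DD g b → b ∈ M.erase a := by
    intro b hb
    have hA := D.DD_A g hb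
    obtain ⟨i, hi, hd⟩ := hb
    have o := hd.own.2
    rw [hi, own_inl] at o
    obtain ⟨y, e, gy, ey⟩ := o
    have e1 : g0 i = b := Sum.inl.inj hi
    have e2 : g0 (i + 1) = y := Sum.inl.inj e
    have hn := D.φ_ne hL gy
    rw [ey] at hn
    have hs := gstep i
    rw [e1, e2] at hs
    rw [mem_erase]
    refine ⟨fun hba => ?_, ?_⟩
    · have : i = 0 := ginj (by rw [e1, g00, hba])
      subst this
      rw [zero_add, g01, ← hba] at e2
      exact hn.2 (by rw [← e2]; ring)
    · rcases hs with h | h | h | h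
      · exact absurd (by rw [h]; ring) hn.2
      · exact absurd (by rw [h]; ring) hn.1
      · exact absurd hA (D.grA _ (hgr _ h.1).1)
      · rw [h.2]; exact (hgr _ h.1).2
  have hlt : (univ.filter (D.DD g)).card < k := by
    calc _ ≤ (M.erase a).card := card_le_card fun b hb => hsub b (mem_filter.1 hb).2
      _ < k := hk ▸ card_erase_lt_of_mem ha
  have := ih _ hlt _ rfl (by simpa using hcl)
  have h0 : b0 ∈ univ.filter (D.DD g) := mem_filter.2 ⟨mem_univ _, hb0⟩
  rw [this] at h0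
  simp at h0

theorem core [Fintype P] [NeZero n] (hL : Long G n f) (hn : ∃ x, ¬ D.A x ∧ x ≠ 0 ∧ x ≠ 1)
    (hJ1 : ∀ K, Even (univ.filter (fun x => D.J x K)).card)
    (hJ2 : ∀ x, ¬ D.A x →
      Odd ((univ.filter (fun K => D.J x K)).card + if D.gr x then 1 else 0)) : False := by
  let H : SimpleGraph (ZMod n ⊕ P) :=
    { Adj := D.SAdj
      symm := ⟨fun _ _ h => D.SAdj_symm h⟩
      loopless := ⟨by
        rintro (x | K) h
        · rcases h with h | h | h | h
          · exact hL.one_ne (by linear_combination -h)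
          · exact hL.one_ne (by linear_combination -h)
          · exact D.grA x h.1 (h.2 ▸ D.rootA x h.1)
          · exact D.grA x h.1 (h.2 ▸ D.rootA x h.1)
        · exact h⟩ }
  have hdeg : ∀ z, H.degree z = ∑ p, if D.SAdj z p then 1 else 0 := by
    intro z
    rw [← card_filter, ← card_neighborFinset_eq_degree, neighborFinset_eq_filter]
  have hev : ∀ K, ¬ Odd (H.degree (.inr K)) := by
    intro K
    rw [Nat.not_odd_iff_even, hdeg, Fintype.sum_sum_type]
    have := hJ1 K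
    rw [card_filter] at this
    have e1 : ∑ x, (if D.SAdj (.inr K) (.inl x) then 1 else 0) =
        ∑ x, (if D.J x K then 1 else 0) := sum_congr rfl fun _ _ => by congr
    have e2 : ∑ K', (if D.SAdj (.inr K) (.inr K') then 1 else 0) = 0 :=
      sum_eq_zero fun _ _ => if_neg id
    rw [e1, e2]; exact this
  have hodd : ∀ x, ¬ D.A x → Odd (H.degree (.inl x)) := by
    intro x hx
    rw [hdeg, Fintype.sum_sum_type]
    have e : ∀ y, (if D.SAdj (.inl x) (.inl y) then 1 else 0) =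
        (if y = x + 1 then 1 else 0) + (if y = x - 1 then 1 else 0) +
          (if D.gr x then (if y = D.φ x then 1 else 0) else 0) := by
      intro y
      have h4 : ¬ (D.gr y ∧ x = D.φ y) := fun h => hx (h.2 ▸ D.rootA y h.1)
      have h5 : x = y + 1 ↔ y = x - 1 := ⟨fun h => by rw [h]; ring, fun h => by rw [h]; ring⟩
      have h6 : x + 1 ≠ x - 1 := fun h => hL.two_ne (by linear_combination h)
      simp only [SAdj, h4, or_false, h5]
      by_cases g : D.gr x
      · obtain ⟨p, q⟩ := D.φ_ne hL g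
        by_cases a : y = x + 1
        · subst a; simp [h6, p.symm]
        · by_cases b : y = x - 1
          · subst b; simp [a, q.symm]
          · simp [a, b, g]
      · by_cases a : y = x + 1
        · subst a; simp [h6, g]
        · simp [a, g]
    have e2 : ∑ y, (if D.SAdj (.inl x) (.inl y) then 1 else 0) =
        2 + if D.gr x then 1 else 0 := by
      simp only [e, sum_add_distrib]
      by_cases g : D.gr x <;> simp [g]
    have := hJ2 x hx
    rw [card_filter] at this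
    rw [e2]
    have e3 : ∑ K, (if D.SAdj (.inl x) (.inr K) then 1 else 0) =
        ∑ K, (if D.J x K then 1 else 0) := sum_congr rfl fun _ _ => by congr
    rw [e3]
    obtain ⟨c, hc⟩ := this
    exact ⟨c + 1, by omega⟩
  obtain ⟨m, hm, g, ginj, gadj, gcov, t, ht⟩ := parity_cycle H n hL.hn (fun i => .inl i)
    Sum.inl_injective (fun i => Or.inl rfl)
    (by
      rintro (x | K) h
      · exact ⟨x, rfl⟩
      · exact absurd h (hev K))
    (by
      obtain ⟨x, a, b, c⟩ := hn
      exact ⟨.inl x, hodd _ a, fun e => b (Sum.inl.inj e), fun e => c (Sum.inl.inj e)⟩)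
  have : NeZero m := ⟨by omega⟩
  have gcov' : ∀ x, ¬ D.A x → ∃ i, g i = .inl x := fun x hx => gcov _ (hodd x hx)
  have hcl := D.closed_DD hL hm ginj gadj gcov'
  obtain ⟨b0, hb0⟩ := D.exists_DD hL hm ginj gadj gcov' t (by
    rintro ⟨u, v, e1, e2, h⟩
    rcases h with h | h
    · exact ht u (by rw [e1, e2, h])
    · exact ht v (by rw [e1, e2, h, Sym2.eq_swap]))
  have := D.no_closed hL _ (univ.filter (D.DD g)) rfl (by simpa using hcl)
  have h0 : b0 ∈ univ.filter (D.DD g) := mem_filter.2 ⟨mem_univ _, hb0⟩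
  rw [this] at h0
  simp at h0

end Dat2

end Pool.Agent.MP_ee574f_co

end

section

set_option autoImplicit false

namespace Pool.Agent.MP_ee574f_co

open Classical Finset

variable {V : Type}

/-- A path inside `R` that starts at a neighbour of `v` and ends next to a vertex outside `R`
other than `v`. -/
def Tail (G : SimpleGraph V) (R : V → Prop) (v : V) (l : List V) : Prop :=
  l.Nodup ∧ l.IsChain G.Adj ∧ (∀ u ∈ l, R u) ∧ (∃ a ∈ l.head?, G.Adj v a) ∧
    ∃ b ∈ l.getLast?, ∃ z, G.Adj b z ∧ ¬ R z ∧ z ≠ v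

theorem tail_iff {G : SimpleGraph V} {R : V → Prop} {v : V} {l : List V} :
    Tail G R v l ↔ l ≠ [] ∧ l.Nodup ∧ (∀ u ∈ l, R u) ∧
      ∃ z, ¬ R z ∧ z ≠ v ∧ (v :: (l ++ [z])).IsChain G.Adj := by
  constructor
  · rintro ⟨h1, h2, h3, ⟨a, ha, hva⟩, b, hb, z, hbz, hz, hzv⟩
    have hl : l ≠ [] := by rintro rfl; simp at ha
    refine ⟨hl, h1, h3, z, hz, hzv, ?_⟩
    rw [List.isChain_cons, List.isChain_append]
    refine ⟨fun y hy => ?_, h2, List.isChain_singleton _, fun x hx y hy => ?_⟩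
    · rw [List.head?_append_of_ne_nil _ hl] at hy
      rw [Option.mem_def] at hy ha
      rw [ha] at hy
      exact Option.some.inj hy ▸ hva
    · rw [Option.mem_def] at hx hb
      rw [hb] at hx
      simp only [List.head?_cons, Option.mem_def, Option.some.injEq] at hy
      exact hy ▸ Option.some.inj hx ▸ hbz
  · rintro ⟨hl, h1, h3, z, hz, hzv, hc⟩
    rw [List.isChain_cons, List.isChain_append, List.head?_append_of_ne_nil _ hl] at hc
    obtain ⟨h4, h2, -, h5⟩ := hc
    exact ⟨h1, h2, h3, ⟨l.head hl, List.head?_eq_some_head hl, h4 _ (List.head?_eq_some_head hl)⟩,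
      l.getLast hl, List.getLast?_eq_some_getLast hl, z,
      h5 _ (List.getLast?_eq_some_getLast hl) z rfl, hz, hzv⟩

theorem tail_glue {G : SimpleGraph V} {a b : V} {l l' : List V} :
    (a :: (l ++ b :: l')).IsChain G.Adj ↔
      (a :: (l ++ [b])).IsChain G.Adj ∧ (b :: l').IsChain G.Adj :=
  List.isChain_split (l₁ := a :: l)

theorem tail_rev {G : SimpleGraph V} {a b : V} {l : List V}
    (h : (a :: (l ++ [b])).IsChain G.Adj) : (b :: (l.reverse ++ [a])).IsChain G.Adj := by
  have : b :: (l.reverse ++ [a]) = (a :: (l ++ [b])).reverse := by simp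
  rw [this, List.isChain_reverse]
  exact h.imp fun _ _ h => h.symm

theorem tail_walk {G : SimpleGraph V} (Y : V → Prop) {w u : V} (q : G.Walk w u) (hq : q.IsPath)
    (hw : Y w) (hu : ¬ Y u) : ∃ Q : List V, (w :: Q).Nodup ∧ (∀ x ∈ Q, Y x ∧ x ∈ q.support) ∧
      ∃ z ∈ q.support, ¬ Y z ∧ (w :: (Q ++ [z])).IsChain G.Adj := by
  induction q with
  | nil => exact absurd hw hu
  | @cons w w' u h q ih =>
    rw [SimpleGraph.Walk.cons_isPath_iff] at hq
    by_cases hw' : Y w'
    · obtain ⟨Q, h1, h2, z, hz, hz', h3⟩ := ih hq.1 hw' hu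
      refine ⟨w' :: Q, List.nodup_cons.2 ⟨fun hm => hq.2 ?_, h1⟩, fun x hx => ?_, z, by simp [hz],
        hz', List.IsChain.cons_cons h h3⟩
      · rcases List.mem_cons.1 hm with rfl | hm
        · exact q.start_mem_support
        · exact (h2 _ hm).2
      · rcases List.mem_cons.1 hx with rfl | hx
        · exact ⟨hw', by simp⟩
        · exact ⟨(h2 _ hx).1, by simp [(h2 _ hx).2]⟩
    · exact ⟨[], by simp, by simp, w', by simp, hw', by simpa using h⟩

theorem tail_exists {G : SimpleGraph V}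
    (hconn : ∀ s : V, (G.induce ({s}ᶜ : Set V)).Connected) {R : V → Prop} {v p u : V}
    (hp : R p) (hvp : G.Adj v p) (hu : ¬ R u) (huv : u ≠ v) : ∃ l, Tail G R v l := by
  obtain ⟨q₀⟩ := (hconn v).preconnected ⟨p, hvp.ne'⟩ ⟨u, huv⟩
  let q : G.Walk p u := q₀.map (SimpleGraph.Embedding.induce ({v}ᶜ : Set V)).toHom
  have hq : ∀ x ∈ q.support, x ≠ v := by
    intro x hx
    have hs := SimpleGraph.Walk.support_map
      (SimpleGraph.Embedding.induce (G := G) ({v}ᶜ : Set V)).toHom q₀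
    obtain ⟨y, -, rfl⟩ := List.mem_map.1 (hs ▸ hx :)
    exact y.2
  obtain ⟨Q, h1, h2, z, hz, hz', h3⟩ := tail_walk R q.bypass q.bypass_isPath hp hu
  refine ⟨p :: Q, tail_iff.2 ⟨by simp, h1, fun x hx => ?_, z, hz',
    hq z (q.support_bypass_subset_support hz), List.IsChain.cons_cons hvp h3⟩⟩
  rcases List.mem_cons.1 hx with rfl | hx
  · exact hp
  · exact (h2 x hx).1

theorem tail_ear {G : SimpleGraph V} {R : V → Prop} {v a : V} {l Q : List V}
    (hl : Tail G R v l) (ha : a ∈ l) (hQ : Tail G (fun x => R x ∧ x ∉ l) a Q) :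
    ∃ l', Tail G R v l' ∧ Q.length + 1 ≤ l'.length := by
  obtain ⟨-, hn, hR, y, hy, hyv, hc⟩ := tail_iff.1 hl
  obtain ⟨-, hn', hR', z, hz, hza, hc'⟩ := tail_iff.1 hQ
  have hN : ∀ x, List.count x (l ++ Q) ≤ 1 := List.nodup_iff_count_le_one.1
    (List.nodup_append.2 ⟨hn, hn', fun x hx y hy hxy => (hR' y hy).2 (hxy ▸ hx)⟩)
  have hA : ∀ x ∈ l ++ Q, R x := fun x hx =>
    (List.mem_append.1 hx).elim (hR x) fun h => (hR' x h).1
  obtain ⟨l1, l2, rfl⟩ := List.append_of_mem ha
  rw [List.append_assoc, List.cons_append, tail_glue] at hc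
  obtain ⟨c1, c2⟩ := hc
  have key : ∀ l' : List V, (∀ x, List.count x l' ≤ List.count x (l1 ++ a :: l2 ++ Q)) →
      Q.length + 1 ≤ l'.length → ∀ z, ¬ R z → z ≠ v → (v :: (l' ++ [z])).IsChain G.Adj →
      ∃ l', Tail G R v l' ∧ Q.length + 1 ≤ l'.length := fun l' h1 h2 z h3 h4 h5 =>
    ⟨l', tail_iff.2 ⟨by rintro rfl; simp at h2,
      List.nodup_iff_count_le_one.2 fun x => (h1 x).trans (hN x),
      fun x hx => hA x (List.count_pos_iff.1 ((List.count_pos_iff.2 hx).trans_le (h1 x))),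
      z, h3, h4, h5⟩, h2⟩
  by_cases hzl : z ∈ l1 ++ a :: l2
  · rcases List.mem_append.1 hzl with h | h
    · obtain ⟨l3, l4, rfl⟩ := List.append_of_mem h
      rw [List.append_assoc, List.cons_append, tail_glue] at c1
      refine key (l3 ++ z :: (Q.reverse ++ a :: l2)) (fun x => ?_) (by simp; omega) y hy hyv ?_
      · simp only [List.count_append, List.count_cons, List.count_reverse]; omega
      · simp only [List.append_assoc, List.cons_append]
        exact tail_glue.2 ⟨c1.1, tail_glue.2 ⟨tail_rev hc', c2⟩⟩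
    · obtain ⟨l3, l4, rfl⟩ := List.append_of_mem ((List.mem_cons.1 h).resolve_left hza)
      rw [List.append_assoc, List.cons_append, tail_glue] at c2
      refine key (l1 ++ a :: (Q ++ z :: l4)) (fun x => ?_) (by simp; omega) y hy hyv ?_
      · simp only [List.count_append, List.count_cons]; omega
      · simp only [List.append_assoc, List.cons_append]
        exact tail_glue.2 ⟨c1, tail_glue.2 ⟨hc', c2.2⟩⟩
  · have hz' : ¬ R z := fun h => hz ⟨h, hzl⟩
    by_cases hzv : z = v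
    · subst hzv
      refine key (Q.reverse ++ a :: l2) (fun x => ?_) (by simp) y hy hyv ?_
      · simp only [List.count_append, List.count_cons, List.count_reverse]; omega
      · simp only [List.append_assoc, List.cons_append]
        exact tail_glue.2 ⟨tail_rev hc', c2⟩
    · refine key (l1 ++ a :: Q) (fun x => ?_) (by simp) z hz' hzv ?_
      · simp only [List.count_append, List.count_cons]; omega
      · simp only [List.append_assoc, List.cons_append]
        exact tail_glue.2 ⟨c1, hc'⟩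

theorem tail_long [Fintype V] (G : SimpleGraph V)
    (hconn : ∀ s : V, (G.induce ({s}ᶜ : Set V)).Connected) (g : ℕ) : ∀ (R : V → Prop) (v p u : V),
    ¬ R v → R p → G.Adj v p → ¬ R u → u ≠ v →
    (∀ r, R r → g * g ≤ (univ.filter (fun w => G.Adj r w ∧ R w)).card) →
    ∃ l, Tail G R v l ∧ g ≤ l.length := by
  induction g with
  | zero =>
    intro R v p u _ hp hvp hu huv _
    obtain ⟨l, hl⟩ := tail_exists hconn hp hvp hu huv
    exact ⟨l, hl, Nat.zero_le _⟩
  | succ g ih =>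
    intro R v p u hv hp hvp hu huv hdeg
    obtain ⟨l, hl⟩ := tail_exists hconn hp hvp hu huv
    by_cases hlen : g + 1 ≤ l.length
    · exact ⟨l, hl, hlen⟩
    have hd : ∀ r, R r → g * g + 1 ≤
        (univ.filter (fun w => G.Adj r w ∧ (R w ∧ w ∉ l))).card := fun r hr => by
      have h1 := hdeg r hr
      have h2 : univ.filter (fun w => G.Adj r w ∧ R w) ⊆
          univ.filter (fun w => G.Adj r w ∧ (R w ∧ w ∉ l)) ∪ l.toFinset := by
        intro w hw
        simp only [mem_filter, mem_univ, true_and, mem_union, List.mem_toFinset] at hw ⊢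
        tauto
      have h3 := (card_le_card h2).trans (card_union_le _ _)
      have h4 := l.toFinset_card_le
      nlinarith
    obtain ⟨a, ha⟩ := List.exists_mem_of_ne_nil l (tail_iff.1 hl).1
    have hRa : R a := hl.2.2.1 a ha
    obtain ⟨p', hp'⟩ := card_pos.1 (lt_of_lt_of_le (Nat.succ_pos _) (hd a hRa))
    simp only [mem_filter, mem_univ, true_and] at hp'
    obtain ⟨Q, hQ, hQl⟩ := ih (fun x => R x ∧ x ∉ l) a p' v (fun h => h.2 ha) hp'.2 hp'.1
      (fun h => hv h.1) (fun h => hv (h ▸ hRa))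
      (fun r hr => by
        refine ((Nat.le_succ _).trans (hd r hr.1)).trans (card_le_card fun w hw => ?_)
        simpa using hw)
    obtain ⟨l', h1, h2⟩ := tail_ear hl ha hQ
    exact ⟨l', h1, by omega⟩

theorem tail_split (P : V → Prop) (l : List V) : ∀ k : ℕ, k + 1 ≤ l.countP (fun x => P x) →
    ∃ l1 a l2, l = l1 ++ a :: l2 ∧ k ≤ l1.length ∧ P a ∧
      l.countP (fun x => P x) ≤ k + 1 + l2.countP (fun x => P x) := by
  induction l with
  | nil => intro k h; simp at h
  | cons x t ih =>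
    intro k h
    by_cases hx : P x
    · rw [List.countP_cons_of_pos (by simpa using hx)] at h ⊢
      rcases k with _ | k
      · exact ⟨[], x, t, rfl, le_rfl, hx, by omega⟩
      · obtain ⟨l1, a, l2, rfl, h1, h2, h3⟩ := ih k (by omega)
        exact ⟨x :: l1, a, l2, rfl, by simpa using h1, h2, by omega⟩
    · rw [List.countP_cons_of_neg (by simpa using hx)] at h ⊢
      obtain ⟨l1, a, l2, rfl, h1, h2, h3⟩ := ih k h
      exact ⟨x :: l1, a, l2, rfl, by simp; omega, h2, h3⟩

theorem short_tail [Fintype V] (G : SimpleGraph V)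
    (hconn : ∀ s : V, (G.induce ({s}ᶜ : Set V)).Connected) (g : ℕ) (R : V → Prop) (v p u : V)
    (hv : ¬ R v) (hp : R p) (hvp : G.Adj v p) (hu : ¬ R u) (huv : u ≠ v)
    (hdeg : ∀ r, R r → g * g ≤ (univ.filter (fun w => G.Adj r w ∧ R w)).card) :
    ∃ l, Tail G R v l ∧ g ≤ l.length ∧
      ∀ r, r ∉ l → r ≠ v → (univ.filter (fun w => G.Adj r w ∧ w ∈ l)).card ≤ g + 3 := by
  have hex : ∃ n, ∃ l, Tail G R v l ∧ g ≤ l.length ∧ l.length = n := by
    obtain ⟨l, h1, h2⟩ := tail_long G hconn g R v p u hv hp hvp hu huv hdeg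
    exact ⟨_, l, h1, h2, rfl⟩
  obtain ⟨l, hl, hg, hn⟩ := Nat.find_spec hex
  have hmin : ∀ l', Tail G R v l' → g ≤ l'.length → l.length ≤ l'.length := fun l' h1 h2 =>
    hn ▸ Nat.find_min' hex ⟨l', h1, h2, rfl⟩
  refine ⟨l, hl, hg, fun r hr hrv => ?_⟩
  by_contra hcon
  have h1 : (univ.filter (fun w => G.Adj r w ∧ w ∈ l)).card ≤ l.countP (fun x => G.Adj r x) := by
    rw [List.countP_eq_length_filter]
    refine le_trans (card_le_card fun w hw => ?_) (List.toFinset_card_le _)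
    simp only [mem_filter, mem_univ, true_and] at hw
    simp [hw.1, hw.2]
  obtain ⟨l1, a, l2, rfl, h2, ha, h3⟩ := tail_split (G.Adj r) l g (by omega)
  obtain ⟨l3, b, l4, rfl, h4, hb, -⟩ := tail_split (G.Adj r) l2 2 (by omega)
  obtain ⟨-, hN, hR, y, hy, hyv, hc⟩ := tail_iff.1 hl
  simp only [List.append_assoc, List.cons_append] at hc
  have c1 := (tail_glue.1 hc).1
  have c3 := (tail_glue.1 (tail_glue.1 hc).2).2
  by_cases hRr : R r
  · have := hmin (l1 ++ a :: r :: b :: l4) (tail_iff.2 ⟨by simp, ?_, fun x hx => ?_, y, hy, hyv, ?_⟩)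
      (by simp; omega)
    · simp at this; omega
    · have h5 := List.nodup_iff_count_le_one.1 (List.nodup_cons.2 ⟨hr, hN⟩)
      refine List.nodup_iff_count_le_one.2 fun x => le_trans ?_ (h5 x)
      simp only [List.count_append, List.count_cons]; omega
    · simp only [List.mem_append, List.mem_cons] at hx hR
      rcases hx with h | h | h | h | h
      · exact hR x (by simp [h])
      · exact hR x (by simp [h])
      · exact h ▸ hRr
      · exact hR x (by simp [h])
      · exact hR x (by simp [h])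
    · simp only [List.append_assoc, List.cons_append]
      exact tail_glue.2 ⟨c1, List.IsChain.cons_cons ha.symm (List.IsChain.cons_cons hb c3)⟩
  · have := hmin (l1 ++ [a]) (tail_iff.2 ⟨by simp, ?_, fun x hx => ?_, r, hRr, hrv, ?_⟩)
      (by simp; omega)
    · simp at this
    · have h5 := List.nodup_iff_count_le_one.1 hN
      refine List.nodup_iff_count_le_one.2 fun x => le_trans ?_ (h5 x)
      simp only [List.count_append, List.count_cons, List.count_nil]; omega
    · refine hR x ?_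
      simp only [List.mem_append, List.mem_cons] at hx ⊢
      tauto
    · simp only [List.append_assoc, List.cons_append, List.nil_append]
      exact tail_glue.2 ⟨c1, by simpa using ha.symm⟩

end Pool.Agent.MP_ee574f_co

end

section

set_option autoImplicit false

namespace Pool.Agent.MP_ee574f_co

/-- Pairs of candidates and a matching `τ` of conflicts: after merging pairs along conflicts, one
free bit per remaining pair selects a conflict-free transversal. -/
theorem merge {α κ : Type} [DecidableEq κ] (τ : α → α → Prop) (Sg Pl : α → Prop)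
    (Far : α → α → Prop) (hsym : ∀ a b, τ a b → τ b a) (hirr : ∀ a, ¬ τ a a)
    (hfun : ∀ a b c, τ a b → τ a c → b = c) (hSg : ∀ a b, Sg a → ¬ τ a b)
    (hPl : ∀ a b, Pl a → Pl b → a ≠ b → Far a b) (S : Finset κ) (c : κ → Bool → α)
    (hinj : ∀ q ∈ S, ∀ q' ∈ S, ∀ b b', c q b = c q' b' → q = q' ∧ b = b')
    (h2 : ∀ q ∈ S, Sg (c q false) → Sg (c q true) → Far (c q false) (c q true))
    (h1 : ∀ q ∈ S, ∀ b, Sg (c q b) → ¬ Sg (c q (!b)) → Pl (c q b)) :
    ∃ (S' : Finset κ) (o : κ → Bool → α),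
      (∀ q ∈ S', ∀ q' ∈ S', ∀ b b', o q b = o q' b' → q = q') ∧
      (∀ q ∈ S', Sg (o q false) → Sg (o q true) → Far (o q false) (o q true)) ∧
      ∀ ω : κ → Bool, ∃ Sel : α → Prop, (∀ q ∈ S, ∃ b, Sel (c q b)) ∧
        (∀ a, Sel a → ∃ q ∈ S, ∃ b, a = c q b) ∧ (∀ a b, Sel a → Sel b → ¬ τ a b) ∧
        ∀ a, Sel a → Sg a → ∃ q ∈ S', a = o q (ω q) := by
  induction hn : S.card using Nat.strong_induction_on generalizing S c with
  | _ n ih =>
  by_cases hc : ∃ q ∈ S, ∃ q2 ∈ S, q ≠ q2 ∧ ∃ b b2, τ (c q b) (c q2 b2)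
  · obtain ⟨q, hq, q2, hq2, hne, b, b2, hτ⟩ := hc
    have hy : ¬ Sg (c q b) := fun h => hSg _ _ h hτ
    have hy2 : ¬ Sg (c q2 b2) := fun h => hSg _ _ h (hsym _ _ hτ)
    have hPx : Sg (c q (!b)) → Pl (c q (!b)) := fun h =>
      h1 q hq (!b) h (by simpa using hy)
    have hPw : Sg (c q2 (!b2)) → Pl (c q2 (!b2)) := fun h =>
      h1 q2 hq2 (!b2) h (by simpa using hy2)
    have hxw : c q (!b) ≠ c q2 (!b2) := fun h => hne (hinj q hq q2 hq2 _ _ h).1
    obtain ⟨c1, hc1f, hc1t, hc1o⟩ : ∃ c1 : κ → Bool → α, c1 q false = c q (!b) ∧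
        c1 q true = c q2 (!b2) ∧ ∀ r, r ≠ q → c1 r = c r := by
      refine ⟨Function.update c q (fun t => if t then c q2 (!b2) else c q (!b)), ?_, ?_, ?_⟩
      · simp
      · simp
      · intro r hr
        exact Function.update_of_ne hr _ _
    have hmem : ∀ r, r ∈ S.erase q2 ↔ r ≠ q2 ∧ r ∈ S := fun r => Finset.mem_erase
    have hqS : q ∈ S.erase q2 := (hmem q).2 ⟨hne, hq⟩
    -- every candidate of `c1` on the smaller index set is a candidate of `c` other than the two
    -- conflicting ones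
    have hcand : ∀ r ∈ S.erase q2, ∀ t, ∃ r' ∈ S, ∃ t', c1 r t = c r' t' ∧
        ¬ (r' = q ∧ t' = b) ∧ ¬ (r' = q2 ∧ t' = b2) := by
      intro r hr t
      obtain ⟨hr2, hrS⟩ := (hmem r).1 hr
      by_cases hrq : r = q
      · subst hrq
        cases t
        · refine ⟨r, hrS, !b, hc1f, ?_, ?_⟩
          · simp
          · exact fun h => hne h.1
        · refine ⟨q2, hq2, !b2, hc1t, ?_, ?_⟩
          · exact fun h => hne h.1.symm
          · simp
      · refine ⟨r, hrS, t, by rw [hc1o r hrq], ?_, ?_⟩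
        · exact fun h => hrq h.1
        · exact fun h => hr2 h.1
    have hinj1 : ∀ r ∈ S.erase q2, ∀ r' ∈ S.erase q2, ∀ t t', c1 r t = c1 r' t' →
        r = r' ∧ t = t' := by
      intro r hr r' hr' t t' h
      obtain ⟨hr2, hrS⟩ := (hmem r).1 hr
      obtain ⟨hr2', hrS'⟩ := (hmem r').1 hr'
      by_cases hrq : r = q
      · by_cases hrq' : r' = q
        · refine ⟨hrq.trans hrq'.symm, ?_⟩
          rw [hrq, hrq'] at h
          cases t <;> cases t'
          · rfl
          · rw [hc1f, hc1t] at h; exact absurd h hxw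
          · rw [hc1f, hc1t] at h; exact absurd h.symm hxw
          · rfl
        · exfalso
          rw [hrq, hc1o r' hrq'] at h
          cases t
          · rw [hc1f] at h; exact hrq' (hinj q hq r' hrS' _ _ h).1.symm
          · rw [hc1t] at h; exact hr2' (hinj q2 hq2 r' hrS' _ _ h).1.symm
      · by_cases hrq' : r' = q
        · exfalso
          rw [hrq', hc1o r hrq] at h
          cases t'
          · rw [hc1f] at h; exact hrq (hinj r hrS q hq _ _ h).1
          · rw [hc1t] at h; exact hr2 (hinj r hrS q2 hq2 _ _ h).1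
        · rw [hc1o r hrq, hc1o r' hrq'] at h
          exact hinj r hrS r' hrS' _ _ h
    have h21 : ∀ r ∈ S.erase q2, Sg (c1 r false) → Sg (c1 r true) →
        Far (c1 r false) (c1 r true) := by
      intro r hr
      obtain ⟨-, hrS⟩ := (hmem r).1 hr
      by_cases hrq : r = q
      · rw [hrq, hc1f, hc1t]
        exact fun ha hb => hPl _ _ (hPx ha) (hPw hb) hxw
      · rw [hc1o r hrq]
        exact h2 r hrS
    have h11 : ∀ r ∈ S.erase q2, ∀ t, Sg (c1 r t) → ¬ Sg (c1 r (!t)) → Pl (c1 r t) := by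
      intro r hr t
      obtain ⟨-, hrS⟩ := (hmem r).1 hr
      by_cases hrq : r = q
      · rw [hrq]
        cases t
        · rw [hc1f]; exact fun ha _ => hPx ha
        · rw [hc1t]; exact fun ha _ => hPw ha
      · rw [hc1o r hrq]
        exact h1 r hrS t
    have hlt : (S.erase q2).card < n := hn ▸ Finset.card_erase_lt_of_mem hq2
    obtain ⟨S', o, ho1, ho2, ho3⟩ := ih _ hlt (S.erase q2) c1 hinj1 h21 h11 rfl
    refine ⟨S', o, ho1, ho2, fun ω => ?_⟩
    obtain ⟨Sel1, hs1, hs2, hs3, hs4⟩ := ho3 ω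
    have hs2' : ∀ a, Sel1 a → ∃ r ∈ S, ∃ t, a = c r t ∧
        ¬ (r = q ∧ t = b) ∧ ¬ (r = q2 ∧ t = b2) := by
      intro a ha
      obtain ⟨r, hr, t, rfl⟩ := hs2 a ha
      exact hcand r hr t
    have hny : ¬ Sel1 (c q b) := by
      intro ha
      obtain ⟨r, hr, t, he, hn1, -⟩ := hs2' _ ha
      obtain ⟨e1, e2⟩ := hinj q hq r hr _ _ he
      exact hn1 ⟨e1.symm, e2.symm⟩
    have hny2 : ¬ Sel1 (c q2 b2) := by
      intro ha
      obtain ⟨r, hr, t, he, -, hn2⟩ := hs2' _ ha
      obtain ⟨e1, e2⟩ := hinj q2 hq2 r hr _ _ he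
      exact hn2 ⟨e1.symm, e2.symm⟩
    have hrest : ∀ r ∈ S, r ≠ q → r ≠ q2 → ∃ t, Sel1 (c r t) := by
      intro r hr hrq hr2
      obtain ⟨t, ht⟩ := hs1 r ((hmem r).2 ⟨hr2, hr⟩)
      exact ⟨t, by rwa [hc1o r hrq] at ht⟩
    -- adding one of the two conflicting candidates, whose only partner is not selected
    have key : ∀ (z z' : α), τ z z' → ¬ Sel1 z' → (∃ r ∈ S, ∃ t, z = c r t) →
        (∃ t, Sel1 (c q t) ∨ c q t = z) → (∃ t, Sel1 (c q2 t) ∨ c q2 t = z) →
        ∃ Sel : α → Prop, (∀ q ∈ S, ∃ b, Sel (c q b)) ∧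
        (∀ a, Sel a → ∃ q ∈ S, ∃ b, a = c q b) ∧ (∀ a b, Sel a → Sel b → ¬ τ a b) ∧
        ∀ a, Sel a → Sg a → ∃ q ∈ S', a = o q (ω q) := by
      intro z z' hz hz' hzc hA hB
      refine ⟨fun a => Sel1 a ∨ a = z, ?_, ?_, ?_, ?_⟩
      · intro r hr
        by_cases hrq : r = q
        · rw [hrq]; exact hA
        · by_cases hr2 : r = q2
          · rw [hr2]; exact hB
          · obtain ⟨t, ht⟩ := hrest r hr hrq hr2
            exact ⟨t, Or.inl ht⟩
      · rintro a (ha | rfl)
        · obtain ⟨r, hr, t, he, -, -⟩ := hs2' a ha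
          exact ⟨r, hr, t, he⟩
        · exact hzc
      · rintro a a' (ha | rfl) (ha' | rfl) h
        · exact hs3 a a' ha ha' h
        · exact hz' (hfun _ _ _ (hsym _ _ h) hz ▸ ha)
        · exact hz' (hfun _ _ _ h hz ▸ ha')
        · exact hirr _ h
      · rintro a (ha | rfl) hsa
        · exact hs4 a ha hsa
        · exact absurd hz (hSg _ _ hsa)
    obtain ⟨t, ht⟩ := hs1 q hqS
    cases t
    · rw [hc1f] at ht
      exact key (c q2 b2) (c q b) (hsym _ _ hτ) hny ⟨q2, hq2, b2, rfl⟩ ⟨!b, Or.inl ht⟩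
        ⟨b2, Or.inr rfl⟩
    · rw [hc1t] at ht
      exact key (c q b) (c q2 b2) hτ hny2 ⟨q, hq, b, rfl⟩ ⟨b, Or.inr rfl⟩ ⟨!b2, Or.inl ht⟩
  · refine ⟨S, c, fun q hq q' hq' b b' h => (hinj q hq q' hq' b b' h).1, h2, fun ω => ?_⟩
    refine ⟨fun a => ∃ q ∈ S, a = c q (ω q), ?_, ?_, ?_, ?_⟩
    · exact fun q hq => ⟨ω q, q, hq, rfl⟩
    · rintro a ⟨q, hq, rfl⟩
      exact ⟨q, hq, ω q, rfl⟩
    · rintro a a' ⟨q, hq, rfl⟩ ⟨q', hq', rfl⟩ h
      by_cases hqq : q = q'
      · subst hqq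
        exact hirr _ h
      · exact hc ⟨q, hq, q', hq', hqq, _, _, h⟩
    · exact fun a ha _ => ha

end Pool.Agent.MP_ee574f_co

end
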