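import Pool.Agent.Mg.Fee574f.G2fbfe5
import Pool.Agent.Mg.Fee574f.Gd21a63
import Pool.Agent.MP_ee574f_co.LLL

section

set_option autoImplicit false

namespace Pool.Agent.MP_ee574f_co

open SimpleGraph Classical Finset

variable {V : Type} [Fintype V] {G : SimpleGraph V} {n : ℕ} [NeZero n] {f : ZMod n → V}

noncomputable def attS (K : Comp G f) : Finset (ZMod n) := univ.filter (fun x => Att x K)

noncomputable def outN (G : SimpleGraph V) (f : ZMod n → V) (x : ZMod n) : Finset V :=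
  univ.filter (fun v => G.Adj (f x) v ∧ v ∉ Set.range f)

def Lv (G : SimpleGraph V) (f : ZMod n → V) (k : ℕ) (x : ZMod n) : Prop :=
  ∃ K : Comp G f, k ≤ (attS K).card ∧ Att x K

omit [Fintype V] [NeZero n] in
theorem mem_mk {v : V} (hv : v ∉ Set.range f) :
    Mem v ((Out G f).connectedComponentMk v) := ⟨rfl, hv⟩

theorem outN_card (hL : Long G n f) (x : ZMod n) : G.degree (f x) ≤ (outN G f x).card + 2 := by
  have : G.neighborFinset (f x) ⊆ outN G f x ∪ {f (x + 1), f (x - 1)} := by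
    intro v hv
    rw [mem_neighborFinset] at hv
    by_cases h : v ∈ Set.range f
    · obtain ⟨y, rfl⟩ := h
      rcases hL.chordless x y hv with rfl | rfl <;> simp
    · exact mem_union_left _ (mem_filter.2 ⟨mem_univ _, hv, h⟩)
  have h1 := card_le_card this
  have h2 := card_union_le (outN G f x) {f (x + 1), f (x - 1)}
  have h3 : ({f (x + 1), f (x - 1)} : Finset V).card ≤ 2 := card_le_two
  rw [card_neighborFinset_eq_degree] at h1
  omega

theorem exists_psi (hL : Long G n f) (k : ℕ) (hk : 0 < k) (hδ : ∀ v, k + 2 ≤ G.degree v) :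
    ∃ ψ : {x // ¬ Lv G f k x} → V, Function.Injective ψ ∧ ∀ x, ψ x ∈ outN G f x.1 := by
  refine (all_card_le_biUnion_card_iff_exists_injective
    (fun x : {x // ¬ Lv G f k x} => outN G f x.1)).1 fun s => ?_
  have := card_mul_le_card_mul (s := s) (t := s.biUnion fun x => outN G f x.1) (m := k) (n := k)
    (fun x v => v ∈ outN G f x.1) ?_ ?_
  · exact Nat.le_of_mul_le_mul_right this hk
  · intro x hx
    have h1 := outN_card hL x.1
    have h2 := hδ (f x.1)
    refine le_trans (by omega : k ≤ (outN G f x.1).card) (card_le_card fun v hv => ?_)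
    exact (mem_bipartiteAbove _).2 ⟨mem_biUnion.2 ⟨x, hx, hv⟩, hv⟩
  · intro v hv
    obtain ⟨x, -, hxv⟩ := mem_biUnion.1 hv
    obtain ⟨-, a, b⟩ := mem_filter.1 hxv
    have hnl : ¬ k ≤ (attS ((Out G f).connectedComponentMk v)).card :=
      fun h => x.2 ⟨_, h, v, mem_mk b, a⟩
    refine le_trans ?_ (not_le.1 hnl).le
    refine card_le_card_of_injOn Subtype.val ?_ Subtype.val_injective.injOn
    intro y hy
    obtain ⟨-, hy⟩ := (mem_bipartiteBelow _).1 (mem_coe.1 hy)
    obtain ⟨-, a', b'⟩ := mem_filter.1 hy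
    exact mem_coe.2 (mem_filter.2 ⟨mem_univ _, v, mem_mk b', a'⟩)

/-- `x` sees only one vertex of `K`. -/
def Priv (K : Comp G f) (x : ZMod n) : Prop := ∃ c, ∀ v, Mem v K → G.Adj (f x) v → v = c

noncomputable def key (K : Comp G f) (x : ZMod n) : V :=
  if h : Priv K x then h.choose else f x

omit [Fintype V] [NeZero n] in
theorem key_priv {K : Comp G f} {x : ZMod n} (h : Priv K x) {v : V} (hv : Mem v K)
    (ha : G.Adj (f x) v) : key K x = v := by
  rw [key, dif_pos h]; exact (h.choose_spec v hv ha).symm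

omit [Fintype V] [NeZero n] in
theorem link_of_key {K : Comp G f} {x y : ZMod n} (hx : Att x K) (hy : Att y K)
    (h : key K x ≠ key K y) : Link2 K x y := by
  obtain ⟨v, hv, av⟩ := hx
  obtain ⟨w, hw, aw⟩ := hy
  by_cases e : v = w
  swap; · exact ⟨v, w, e, hv, hw, av, aw⟩
  subst e
  by_cases px : Priv K x
  · by_cases py : Priv K y
    · exact absurd ((key_priv px hv av).trans (key_priv py hv aw).symm) h
    · simp only [Priv, not_exists, not_forall] at py
      obtain ⟨w, hw, aw, e⟩ := py v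
      exact ⟨v, w, Ne.symm e, hv, hw, av, aw⟩
  · simp only [Priv, not_exists, not_forall] at px
    obtain ⟨w, hw, aw', e⟩ := px v
    exact ⟨w, v, e, hw, hv, aw', aw⟩

theorem keys_card (hL : Long G n f) (c k : ℕ)
    (hconn : ∀ S : Finset V, S.card < c → (G.induce ((↑S : Set V)ᶜ)).Connected)
    (hδ : ∀ v, k + c ≤ G.degree v) {K : Comp G f} (hK : (attS K).card < k) {x : ZMod n}
    (hx : Att x K) : c ≤ ((attS K).image (key K)).card := by
  by_contra hlt
  push Not at hlt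
  set S := (attS K).image (key K) with hS
  have hc := hconn S hlt
  obtain ⟨v0, hv0, -⟩ := id hx
  -- a member of `K` outside `S`
  have hv : ∃ v, Mem v K ∧ v ∉ S := by
    by_contra hno
    push Not at hno
    have : G.neighborFinset v0 ⊆ S ∪ (attS K).image f := by
      intro w hw
      rw [mem_neighborFinset] at hw
      by_cases h : w ∈ Set.range f
      · obtain ⟨y, rfl⟩ := h
        exact mem_union_right _ (mem_image_of_mem _ (mem_filter.2 ⟨mem_univ _, v0, hv0, hw.symm⟩))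
      · exact mem_union_left _ (hno w (hv0.step hw h))
    have h1 := card_le_card this
    have h2 := card_union_le S ((attS K).image f)
    have h3 : ((attS K).image f).card ≤ (attS K).card := card_image_le
    have h4 := hδ v0
    rw [card_neighborFinset_eq_degree] at h1
    omega
  obtain ⟨v, hv, hvS⟩ := hv
  have hu : f (x + 1) ∉ S := by
    intro h
    obtain ⟨y, hy, e⟩ := mem_image.1 h
    have hy' := (mem_filter.1 hy).2
    by_cases p : Priv K y
    · obtain ⟨w, hw, aw⟩ := hy'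
      exact hw.2 ⟨x + 1, by rw [← e, key_priv p hw aw]⟩
    · rw [key, dif_neg p] at e
      exact hL.not_att_succ hx (hL.inj e ▸ hy')
  obtain ⟨p⟩ := hc.preconnected ⟨v, by simpa using hvS⟩ ⟨f (x + 1), by simpa using hu⟩
  have inv : ∀ (a b : ((↑S : Set V)ᶜ : Set V)) (_ : (G.induce ((↑S : Set V)ᶜ)).Walk a b),
      Mem a.1 K → Mem b.1 K := by
    intro a b q
    induction q with
    | nil => exact id
    | @cons a' b' _ h _ ih =>
      intro ha
      have h' : G.Adj a'.1 b'.1 := h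
      refine ih (ha.step h' ?_)
      rintro ⟨y, e⟩
      have hy : y ∈ attS K := mem_filter.2 ⟨mem_univ _, a'.1, ha, e ▸ h'.symm⟩
      have hk : key K y ∈ S := mem_image_of_mem _ hy
      by_cases p : Priv K y
      · rw [key_priv p ha (e ▸ h'.symm)] at hk
        exact a'.2 (mem_coe.2 hk)
      · rw [key, dif_neg p, e] at hk
        exact b'.2 (mem_coe.2 hk)
  exact (inv _ _ p hv).2 ⟨x + 1, rfl⟩

theorem exists_adm (hL : Long G n f) (c k : ℕ)
    (hconn : ∀ S : Finset V, S.card < c → (G.induce ((↑S : Set V)ᶜ)).Connected)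
    (hδ : ∀ v, k + c ≤ G.degree v) (ψ : {x // ¬ Lv G f k x} → V) (hψ : Function.Injective ψ)
    (hψ' : ∀ x, ψ x ∈ outN G f x.1) (K : Comp G f) :
    ∃ Ad : Finset (ZMod n), (∀ x ∈ Ad, Att x K) ∧
      (∀ x ∈ Ad, ∀ y ∈ Ad, x ≠ y → Link2 K x y) ∧ (∀ x, Mem (ψ x) K → x.1 ∈ Ad) ∧
      ((attS K).card < k → Ad.Nonempty → c ≤ Ad.card) := by
  let U : Set (ZMod n) := {x | ∃ h : ¬ Lv G f k x, Mem (ψ ⟨x, h⟩) K}
  have hU : Set.InjOn (key K) U := by
    rintro x ⟨hx, mx⟩ y ⟨hy, my⟩ e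
    have ax := (mem_filter.1 (hψ' ⟨x, hx⟩)).2.1
    have ay := (mem_filter.1 (hψ' ⟨y, hy⟩)).2.1
    by_cases px : Priv K x <;> by_cases py : Priv K y
    · rw [key_priv px mx ax, key_priv py my ay] at e
      exact congrArg Subtype.val (hψ e)
    · rw [key_priv px mx ax, key, dif_neg py] at e
      exact absurd ⟨y, e.symm⟩ mx.2
    · rw [key_priv py my ay, key, dif_neg px] at e
      exact absurd ⟨x, e⟩ my.2
    · rw [key, key, dif_neg px, dif_neg py] at e
      exact hL.inj e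
  have hUs : U ⊆ ↑(attS K) := by
    rintro x ⟨hx, mx⟩
    exact mem_coe.2 (mem_filter.2 ⟨mem_univ _, _, mx, (mem_filter.1 (hψ' ⟨x, hx⟩)).2.1⟩)
  obtain ⟨u, h1, h2, h3, h4⟩ := hU.exists_subset_injOn_subset_range_eq hUs
  have hatt : ∀ x ∈ u, Att x K := fun x hx => (mem_filter.1 (mem_coe.1 (h2 hx))).2
  refine ⟨u.toFinset, fun x hx => hatt x (Set.mem_toFinset.1 hx), ?_, ?_, ?_⟩
  · intro x hx y hy hxy
    rw [Set.mem_toFinset] at hx hy
    exact link_of_key (hatt x hx) (hatt y hy) (fun e => hxy (h4 hx hy e))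
  · intro x hx
    exact Set.mem_toFinset.2 (h1 ⟨x.2, hx⟩)
  · rintro hK ⟨x, hx⟩
    refine (keys_card hL c k hconn hδ hK (hatt x (Set.mem_toFinset.1 hx))).trans ?_
    have : (attS K).image (key K) = u.toFinset.image (key K) := by
      apply coe_injective
      rw [coe_image, coe_image, Set.coe_toFinset, h3]
    rw [this]; exact card_image_le

end Pool.Agent.MP_ee574f_co

end

section

set_option autoImplicit false

namespace Pool.Agent.MP_ee574f_co

open SimpleGraph Classical Finset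

/-- Parity-join lemma, even classes need no free vertex. -/
theorem tjoin2 {X Y : Type} [Fintype X] [Fintype Y] (E : X → Y → Prop) (free : X → Prop)
    (hfree : ∀ x, (∃ x', free x' ∧ Relation.EqvGen (fun a b => ∃ y, E a y ∧ E b y) x x') ∨
      Even (univ.filter (fun z => Relation.EqvGen (fun a b => ∃ y, E a y ∧ E b y) x z)).card) :
    ∃ J : X → Y → ZMod 2, (∀ x y, J x y ≠ 0 → E x y) ∧ (∀ y, ∑ x, J x y = 0) ∧
      ∀ x, ¬ free x → ∑ y, J x y = 1 := by
  set R : X → X → Prop := fun a b => ∃ y, E a y ∧ E b y with hR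
  let st : Setoid X := Relation.EqvGen.setoid R
  let rep : X → Prop := fun x => x = (Quotient.mk st x).out ∧
    ¬ ∃ x', free x' ∧ Relation.EqvGen R x x'
  obtain ⟨J, j1, j2, j3⟩ := tjoin E (fun x => free x ∨ rep x) (by
    intro x
    by_cases h : ∃ x', free x' ∧ Relation.EqvGen R x x'
    · obtain ⟨x', h1, h2⟩ := h; exact ⟨x', Or.inl h1, h2⟩
    · have e : Relation.EqvGen R x (Quotient.mk st x).out :=
        Quotient.exact (s := st) (Quotient.out_eq _).symm
      refine ⟨_, Or.inr ⟨by rw [Quotient.out_eq], ?_⟩, e⟩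
      rintro ⟨x', h1, h2⟩
      exact h ⟨x', h1, .trans _ _ _ e h2⟩)
  refine ⟨J, j1, j2, fun x hx => ?_⟩
  by_cases hr : rep x
  swap; · exact j3 x (not_or.2 ⟨hx, hr⟩)
  have hev := (hfree x).resolve_left hr.2
  set S := univ.filter (fun z => Relation.EqvGen R x z) with hS
  have hxS : x ∈ S := mem_filter.2 ⟨mem_univ _, .refl _⟩
  have h0 : ∑ z ∈ S, ∑ y, J z y = 0 := by
    rw [sum_comm]
    refine sum_eq_zero fun y _ => ?_
    by_cases h : ∃ z ∈ S, J z y ≠ 0
    · obtain ⟨z, hz, hzy⟩ := h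
      rw [← j2 y]
      refine sum_subset (subset_univ _) fun w _ hw => ?_
      by_contra hwy
      exact hw (mem_filter.2 ⟨mem_univ _, .trans _ _ _ (mem_filter.1 hz).2
        (.rel _ _ ⟨y, j1 z y hzy, j1 w y hwy⟩)⟩)
    · exact sum_eq_zero fun z hz => by by_contra h'; exact h ⟨z, hz, h'⟩
  have h1 : ∑ z ∈ S.erase x, ∑ y, J z y = ((S.erase x).card : ZMod 2) := by
    rw [card_eq_sum_ones]; push_cast
    refine sum_congr rfl fun z hz => j3 z ?_
    obtain ⟨hzx, hz⟩ := mem_erase.1 hz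
    have hz' := (mem_filter.1 hz).2
    rintro (h | h)
    · exact hr.2 ⟨z, h, hz'⟩
    · exact hzx (h.1.trans ((congrArg Quotient.out (Quotient.sound (s := st) hz')).symm.trans
        hr.1.symm))
  rw [← add_sum_erase _ _ hxS, h1] at h0
  have h2 : ((S.erase x).card : ZMod 2) + 1 = 0 := by
    have := ZMod.natCast_eq_zero_iff_even.2 hev
    rw [← card_erase_add_one hxS] at this
    exact_mod_cast this
  have h3 : ∀ a b : ZMod 2, a + b = 0 → b + 1 = 0 → a = 1 := by decide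
  exact h3 _ _ h0 h2

theorem card_ne_zero_cast2 {X : Type} [Fintype X] (u : X → ZMod 2) :
    (((univ.filter (fun x => u x ≠ 0)).card : ℕ) : ZMod 2) = ∑ x, u x := by
  rw [card_filter]; push_cast
  refine sum_congr rfl fun x _ => ?_
  have : ∀ a : ZMod 2, (if a ≠ 0 then (1 : ZMod 2) else 0) = a := by decide
  convert this (u x)

theorem run_of_local {n : ℕ} (W A : ZMod n → Prop)
    (s1 : ∀ i, A i → A (i + 1) → W i ∨ W (i + 1))
    (s2 : ∀ i, A i → A (i + 1) → W i → W (i + 1) ∨ W (i - 1))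
    (s2' : ∀ i, A i → A (i + 1) → W (i + 1) → W i ∨ W (i + 2))
    (s3 : ∀ i, A i → A (i + 1) → W i → W (i + 1) →
      (W (i + 2) ∧ ¬ A (i + 2)) ∨ (W (i - 1) ∧ ¬ A (i - 1)))
    (M : ZMod n → Prop) (hM : ∀ a, M a → A a) (a : ZMod n) (ha : M a)
    (h : A (a + 1) ∨ A (a - 1)) : ∃ x, W x ∧ ¬ M x ∧ (M (x + 1) ∨ M (x - 1)) ∧
      a ∈ ({x + 1, x + 2, x + 3, x - 1, x - 2, x - 3} : Finset (ZMod n)) := by
  have hA := hM a ha
  have e1 : a + 1 + 1 = a + 2 := by ring
  have e2 : a + 1 + 2 = a + 3 := by ring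
  have e3 : a - 1 + 1 = a := by ring
  have e4 : a - 1 + 2 = a + 1 := by ring
  have e5 : a - 1 - 1 = a - 2 := by ring
  have e6 : a - 2 + 1 = a - 1 := by ring
  have e7 : a - 2 + 2 = a := by ring
  have e8 : a - 2 - 1 = a - 3 := by ring
  have e9 : a + 1 - 1 = a := by ring
  have b1 : W (a + 1) → ¬ M (a + 1) → ∃ x, W x ∧ ¬ M x ∧ (M (x + 1) ∨ M (x - 1)) ∧
      a ∈ ({x + 1, x + 2, x + 3, x - 1, x - 2, x - 3} : Finset (ZMod n)) :=
    fun u v => ⟨_, u, v, Or.inr (by rwa [e9]), by simp⟩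
  have b2 : M (a + 1) → W (a + 2) → ¬ M (a + 2) → ∃ x, W x ∧ ¬ M x ∧ (M (x + 1) ∨ M (x - 1)) ∧
      a ∈ ({x + 1, x + 2, x + 3, x - 1, x - 2, x - 3} : Finset (ZMod n)) :=
    fun t u v => ⟨_, u, v, Or.inr (by convert t using 1; ring), by simp⟩
  have b3 : M (a + 2) → W (a + 3) → ¬ M (a + 3) → ∃ x, W x ∧ ¬ M x ∧ (M (x + 1) ∨ M (x - 1)) ∧
      a ∈ ({x + 1, x + 2, x + 3, x - 1, x - 2, x - 3} : Finset (ZMod n)) :=
    fun t u v => ⟨_, u, v, Or.inr (by convert t using 1; ring), by simp⟩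
  have c1 : W (a - 1) → ¬ M (a - 1) → ∃ x, W x ∧ ¬ M x ∧ (M (x + 1) ∨ M (x - 1)) ∧
      a ∈ ({x + 1, x + 2, x + 3, x - 1, x - 2, x - 3} : Finset (ZMod n)) :=
    fun u v => ⟨_, u, v, Or.inl (by rwa [e3]), by simp⟩
  have c2 : M (a - 1) → W (a - 2) → ¬ M (a - 2) → ∃ x, W x ∧ ¬ M x ∧ (M (x + 1) ∨ M (x - 1)) ∧
      a ∈ ({x + 1, x + 2, x + 3, x - 1, x - 2, x - 3} : Finset (ZMod n)) :=
    fun t u v => ⟨_, u, v, Or.inl (by rwa [e6]), by simp⟩
  have c3 : M (a - 2) → W (a - 3) → ¬ M (a - 3) → ∃ x, W x ∧ ¬ M x ∧ (M (x + 1) ∨ M (x - 1)) ∧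
      a ∈ ({x + 1, x + 2, x + 3, x - 1, x - 2, x - 3} : Finset (ZMod n)) :=
    fun t u v => ⟨_, u, v, Or.inl (by convert t using 1; ring), by simp⟩
  have p0 := s1 a; have p1 := s1 (a - 1)
  have q0 := s2 a; have q1 := s2 (a - 1)
  have r0 := s2' a; have r1 := s2' (a - 1)
  have t0 := s3 a; have t1 := s3 (a - 1); have t2 := s3 (a + 1); have t3 := s3 (a - 2)
  simp only [e1, e2, e3, e4, e5, e6, e7, e8, e9] at p1 q1 r1 t1 t2 t3
  have m1 := hM (a + 1); have m2 := hM (a + 2); have m3 := hM (a + 3)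
  have n1 := hM (a - 1); have n2 := hM (a - 2); have n3 := hM (a - 3)
  rcases h with h | h
  · by_cases w0 : W a <;> by_cases w1 : W (a + 1)
    · rcases t0 hA h w0 w1 with ⟨u, v⟩ | ⟨u, v⟩
      · by_cases m : M (a + 1)
        · exact b2 m u fun z => v (m2 z)
        · exact b1 w1 m
      · exact c1 u fun z => v (n1 z)
    · have u := (q0 hA h w0).resolve_left w1
      by_cases m : M (a - 1)
      · rcases t1 (n1 m) hA u w0 with ⟨u', -⟩ | ⟨u', v⟩
        · exact absurd u' w1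
        · exact c2 m u' fun z => v (n2 z)
      · exact c1 u m
    · by_cases m : M (a + 1)
      swap; · exact b1 w1 m
      have u := (r0 hA h w1).resolve_left w0
      by_cases m' : M (a + 2)
      swap; · exact b2 m u m'
      rcases t2 h (m2 m') w1 u with ⟨u', v⟩ | ⟨u', -⟩
      · exact b3 m' u' fun z => v (m3 z)
      · exact absurd u' w0
    · exact absurd (p0 hA h) (not_or.2 ⟨w0, w1⟩)
  · by_cases w0 : W a <;> by_cases w1 : W (a - 1)
    · rcases t1 h hA w1 w0 with ⟨u, v⟩ | ⟨u, v⟩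
      · exact b1 u fun z => v (m1 z)
      · by_cases m : M (a - 1)
        · exact c2 m u fun z => v (n2 z)
        · exact c1 w1 m
    · have u := (r1 h hA w0).resolve_left w1
      by_cases m : M (a + 1)
      · rcases t0 hA (m1 m) w0 u with ⟨u', v⟩ | ⟨u', -⟩
        · exact b2 m u' fun z => v (m2 z)
        · exact absurd u' w1
      · exact b1 u m
    · by_cases m : M (a - 1)
      swap; · exact c1 w1 m
      have u := (q1 h hA w1).resolve_left w0
      by_cases m' : M (a - 2)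
      swap; · exact c2 m u m'
      rcases t3 (n2 m') h u w1 with ⟨u', -⟩ | ⟨u', v⟩
      · exact absurd u' w0
      · exact c3 m' u' fun z => v (n3 z)
    · exact absurd (p1 h hA) (not_or.2 ⟨w1, w0⟩)

variable {V : Type} [Fintype V] {G : SimpleGraph V} {n : ℕ} [NeZero n] {f : ZMod n → V}

omit [Fintype V] in
/-- Final assembly from a good set of sinks. -/
theorem finish2 (hL : Long G n f) (k : ℕ) {P : Type} [Fintype P] (T : P → V → Prop)
    (Ad : P → ZMod n → Prop)
    (t1 : ∀ p v, T p v → v ∉ Set.range f ∧ (attS ((Out G f).connectedComponentMk v)).card < k)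
    (t2 : ∀ p p' v, T p v → T p' v → p = p')
    (a2 : ∀ p x y, Ad p x → Ad p y → x ≠ y → Link G f (T p) x y)
    (A : ZMod n → Prop) (hn : ∃ x, ¬ A x ∧ x ≠ 0 ∧ x ≠ 1)
    (hrun : ∀ M : ZMod n → Prop, (∀ a, M a → A a) → ∀ a, M a → (A (a + 1) ∨ A (a - 1)) →
      ∃ x, ¬ Lv G f k x ∧ ¬ M x ∧ (M (x + 1) ∨ M (x - 1)) ∧
        a ∈ ({x + 1, x + 2, x + 3, x - 1, x - 2, x - 3} : Finset (ZMod n)))
    (hroot : ∀ K : Comp G f, k ≤ (attS K).card → ∃ s, Att s K ∧ A s)
    (hfree : ∀ x, (∃ x', (Lv G f k x' ∨ A x') ∧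
      Relation.EqvGen (fun a b => ∃ p, Ad p a ∧ Ad p b) x x') ∨
      Even (univ.filter (fun z => Relation.EqvGen (fun a b => ∃ p, Ad p a ∧ Ad p b) x z)).card) :
    False := by
  obtain ⟨J, j1, j2, j3⟩ := tjoin2 (fun x p => Ad p x) (fun x => Lv G f k x ∨ A x)
    (by convert hfree)
  have h1 : ∀ x, ∃ K : Comp G f, Lv G f k x → k ≤ (attS K).card ∧ Att x K := by
    intro x
    by_cases h : Lv G f k x
    · obtain ⟨K, hK⟩ := h; exact ⟨K, fun _ => hK⟩
    · exact ⟨(Out G f).connectedComponentMk (f 0), fun h' => absurd h' h⟩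
  choose hs hhs using h1
  have h2 : ∀ K : Comp G f, ∃ s, k ≤ (attS K).card → Att s K ∧ A s := by
    intro K
    by_cases h : k ≤ (attS K).card
    · obtain ⟨s, hs⟩ := hroot K h; exact ⟨s, fun _ => hs⟩
    · exact ⟨0, fun h' => absurd h' h⟩
  choose ρ hρ using h2
  let D : Dat2 G f P :=
    { A := A
      W := fun x => ¬ Lv G f k x
      gr := fun x => Lv G f k x ∧ ¬ A x ∧ Even (univ.filter (fun K => J x K ≠ 0)).card
      hs := hs
      ρ := ρ
      T := T
      J := fun x K => J x K ≠ 0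
      grA := fun x h => h.2.1
      grAtt := fun x h => (hhs x h.1).2
      rootA := fun x h => (hρ _ (hhs x h.1).1).2
      rootAtt := fun x h => (hρ _ (hhs x h.1).1).1
      Tout := fun p v h => (t1 p v h).1
      Tdis := t2
      JLink := fun x y K h h' => a2 K x y (j1 x K h) (j1 y K h')
      Tsep := fun p v y h h' e => by
        have := (t1 p v h).2
        have h3 := (hhs y h'.1).1
        rw [e.1] at this; omega
      Wgr := fun x h h' => h h'.1
      Wroot := fun x y h h' e => h ⟨_, (hhs y h'.1).1, e ▸ (hρ _ (hhs y h'.1).1).1⟩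
      run := hrun }
  refine D.core hL hn (fun K => ?_) (fun x hx => ?_)
  · rw [← ZMod.natCast_eq_zero_iff_even]
    convert (card_ne_zero_cast2 (fun x => J x K)).trans (j2 K)
  · suffices h : Odd ((univ.filter (fun K => J x K ≠ 0)).card + if D.gr x then 1 else 0) by
      convert h
    by_cases hl : Lv G f k x
    · by_cases he : Even (univ.filter (fun K => J x K ≠ 0)).card
      · rw [if_pos (show D.gr x from ⟨hl, hx, he⟩)]; exact he.add_one
      · rw [if_neg (fun h : D.gr x => he h.2.2), add_zero]; exact Nat.not_even_iff_odd.1 he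
    · rw [if_neg (fun h : D.gr x => hl h.1), add_zero, ← ZMod.natCast_eq_one_iff_odd]
      exact (card_ne_zero_cast2 (fun K => J x K)).trans (j3 x (not_or.2 ⟨hl, hx⟩))

end Pool.Agent.MP_ee574f_co

end

section

set_option autoImplicit false

namespace Pool.Agent.MP_ee574f_co

open SimpleGraph Classical Finset

variable {V : Type} {G : SimpleGraph V} {n : ℕ} {f : ZMod n → V}

/-- The edges of `G` inside `T`. -/
def Ins (G : SimpleGraph V) (T : V → Prop) : SimpleGraph V where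
  Adj a b := G.Adj a b ∧ T a ∧ T b
  symm := ⟨fun _ _ h => ⟨h.1.symm, h.2.2, h.2.1⟩⟩
  loopless := ⟨fun a h => G.loopless.1 a h.1⟩

theorem ins_mono {T T' : V → Prop} (h : ∀ v, T v → T' v) {u w : V}
    (hr : (Ins G T).Reachable u w) : (Ins G T').Reachable u w :=
  Reachable.mono (G := Ins G T) (G' := Ins G T') (fun _ _ e => ⟨e.1, h _ e.2.1, h _ e.2.2⟩) hr

theorem ins_path {T : V → Prop} {v w : V} (hv : T v) (hr : (Ins G T).Reachable v w) :
    ∃ l : List V, l.Nodup ∧ l.IsChain G.Adj ∧ (∀ u ∈ l, T u) ∧ l.head? = some v ∧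
      l.getLast? = some w := by
  obtain ⟨p, hp⟩ := hr.exists_isPath
  refine ⟨p.support, hp.support_nodup, p.isChain_adj_support.imp (fun _ _ h => h.1), ?_, ?_, ?_⟩
  · clear hp hr
    induction p with
    | nil => intro u hu; simp at hu; exact hu ▸ hv
    | cons h q ih =>
      intro u hu
      rw [Walk.support_cons, List.mem_cons] at hu
      rcases hu with rfl | hu
      · exact hv
      · exact ih h.2.2 u hu
  · cases p <;> simp
  · rw [List.getLast?_eq_some_getLast p.support_ne_nil, Walk.getLast_support]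

theorem ins_chain {T : V → Prop} {b : V} : ∀ l : List V, l.IsChain G.Adj → (∀ u ∈ l, T u) →
    b ∈ l.getLast? → ∀ a ∈ l, (Ins G T).Reachable a b
  | [], _, _, _, a, ha => by simp at ha
  | [x], _, _, hb, a, ha => by
    simp at hb ha; subst hb; subst ha; exact .refl _
  | x :: y :: l, hc, hT, hb, a, ha => by
    rw [List.isChain_cons_cons] at hc
    have ih := ins_chain (y :: l) hc.2 (fun u hu => hT u (List.mem_cons_of_mem _ hu))
      (by simpa using hb)
    rcases List.mem_cons.1 ha with rfl | ha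
    · exact (Adj.reachable (G := Ins G T) ⟨hc.1, hT _ (by simp), hT _ (by simp)⟩).trans
        (ih y (by simp))
    · exact ih a ha

theorem Link.symm {T : V → Prop} {x y : ZMod n} (h : Link G f T x y) : Link G f T y x := by
  obtain ⟨l, h1, h2, h3, h4, h5, h6⟩ := h
  exact ⟨l.reverse, List.nodup_reverse.2 h1,
    List.isChain_reverse.2 (h2.imp fun _ _ h => h.symm), fun v hv => h3 v (List.mem_reverse.1 hv),
    by simpa using h5, by simpa using h4, by simpa using h6⟩

theorem Link.mono {T T' : V → Prop} {x y : ZMod n} (h : Link G f T x y) (hT : ∀ v, T v → T' v) :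
    Link G f T' x y := by
  obtain ⟨l, h1, h2, h3, h4⟩ := h
  exact ⟨l, h1, h2, fun v hv => hT v (h3 v hv), h4⟩

/-- Invariant of the construction of the pieces. -/
structure Inv [Fintype V] (G : SimpleGraph V) (f : ZMod n → V) (W : ZMod n → Prop)
    (ψ : ZMod n → V) (S : Finset (ZMod n)) (T : ZMod n → V → Prop)
    (Ad : ZMod n → ZMod n → Prop) (tl : ZMod n → List V) : Prop where
  i1 : ∀ p v, T p v → ∃ x, W x ∧ (v = ψ x ∨ v ∈ tl x)
  i2 : ∀ x, ∀ v ∈ tl x, Mem v ((Out G f).connectedComponentMk (ψ x))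
  i3 : ∀ x r, r ∉ tl x → r ∉ Set.range f →
    (univ.filter (fun w => G.Adj r w ∧ w ∈ tl x)).card ≤ 17
  i4 : ∀ x, ∀ v ∈ tl x, ∃ p, T p v
  dis : ∀ p p' v, T p v → T p' v → p = p'
  con : ∀ p u w, T p u → T p w → (Ins G (T p)).Reachable u w
  a0 : ∀ p v, T p v → Ad p p
  a1 : ∀ p x, Ad p x → ∃ v, T p v ∧ G.Adj (f x) v
  a2 : ∀ p x y, Ad p x → Ad p y → x ≠ y → Link G f (T p) x y
  d : ∀ x, W x → (∃ p y, y ≠ x ∧ Ad p x ∧ Ad p y) ∨
    (x ∉ S ∧ (∀ v, T x v ↔ v = ψ x) ∧ (∀ y, Ad x y → y = x) ∧ tl x = [] ∧ ∀ y, ψ x ∉ tl y)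

variable [Fintype V] [NeZero n]

theorem Inv.deg {k : ℕ} {ψ : ZMod n → V} {S : Finset (ZMod n)} {T : ZMod n → V → Prop}
    {Ad : ZMod n → ZMod n → Prop} {tl : ZMod n → List V}
    (h : Inv G f (fun x => ¬ Lv G f k x) ψ S T Ad tl)
    (hψ : ∀ x, ¬ Lv G f k x → G.Adj (f x) (ψ x) ∧ ψ x ∉ Set.range f)
    (K : Comp G f) (x0 : ZMod n) (r : V) (hr : Mem r K) (hr' : ∀ y, r ∉ tl y) :
    G.degree r ≤ (univ.filter (fun w => G.Adj r w ∧ (Mem w K ∧ ∀ p, T p w → p = x0))).card +
      19 * (attS K).card := by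
  have hsub : G.neighborFinset r ⊆
      univ.filter (fun w => G.Adj r w ∧ (Mem w K ∧ ∀ p, T p w → p = x0)) ∪
        (attS K).biUnion (fun x => {f x, ψ x} ∪ univ.filter (fun w => G.Adj r w ∧ w ∈ tl x)) := by
    intro w hw
    rw [mem_neighborFinset] at hw
    by_cases hf : w ∈ Set.range f
    · obtain ⟨y, rfl⟩ := hf
      exact mem_union_right _ (mem_biUnion.2 ⟨y, mem_filter.2 ⟨mem_univ _, r, hr, hw.symm⟩,
        by simp⟩)
    have hwK := hr.step hw hf
    by_cases hp : ∀ p, T p w → p = x0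
    · exact mem_union_left _ (mem_filter.2 ⟨mem_univ _, hw, hwK, hp⟩)
    obtain ⟨p, hp⟩ : ∃ p, T p w := by by_contra hno; exact hp fun p e => absurd ⟨p, e⟩ hno
    obtain ⟨x, hx, e | e⟩ := h.i1 p w hp
    · exact mem_union_right _ (mem_biUnion.2 ⟨x, mem_filter.2 ⟨mem_univ _, w, hwK,
        e ▸ (hψ x hx).1⟩, by simp [e]⟩)
    · have := (h.i2 x w e).unique hwK
      exact mem_union_right _ (mem_biUnion.2 ⟨x, mem_filter.2 ⟨mem_univ _, ψ x,
        this ▸ mem_mk (hψ x hx).2, (hψ x hx).1⟩,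
        mem_union_right _ (mem_filter.2 ⟨mem_univ _, hw, e⟩)⟩)
  have h1 := (card_le_card hsub).trans (card_union_le _ _)
  have h2 := card_biUnion_le_card_mul (attS K)
    (fun x => {f x, ψ x} ∪ univ.filter (fun w => G.Adj r w ∧ w ∈ tl x)) 19 fun x _ => by
      have a := h.i3 x r (hr' x) hr.2
      have b : ({f x, ψ x} : Finset V).card ≤ 2 := card_le_two
      exact (card_union_le _ _).trans (by omega)
  rw [card_neighborFinset_eq_degree] at h1
  omega

theorem Inv.step (hL : Long G n f) {k : ℕ}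
    (hconn : ∀ s : V, (G.induce ({s}ᶜ : Set V)).Connected)
    (hδ : ∀ v, 19 * k + 196 ≤ G.degree v) {ψ : ZMod n → V}
    (hψ : ∀ x, ¬ Lv G f k x → G.Adj (f x) (ψ x) ∧ ψ x ∉ Set.range f)
    {S : Finset (ZMod n)} {T : ZMod n → V → Prop}
    {Ad : ZMod n → ZMod n → Prop} {tl : ZMod n → List V}
    (h : Inv G f (fun x => ¬ Lv G f k x) ψ S T Ad tl) (x0 : ZMod n) :
    ∃ T' Ad' tl', Inv G f (fun x => ¬ Lv G f k x) ψ (insert x0 S) T' Ad' tl' := by
  by_cases h0 : ¬ Lv G f k x0 → ∃ p y, y ≠ x0 ∧ Ad p x0 ∧ Ad p y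
  · refine ⟨T, Ad, tl, { h with d := fun x hx => ?_ }⟩
    by_cases e : x = x0
    · subst e; exact Or.inl (h0 hx)
    · exact (h.d x hx).imp id fun u => ⟨by simp [e, u.1], u.2⟩
  rw [Classical.not_imp] at h0
  obtain ⟨hW, hnh⟩ := h0
  obtain ⟨-, l1, l2, l3, l4⟩ := (h.d x0 hW).resolve_left hnh
  set K := (Out G f).connectedComponentMk (ψ x0) with hK
  have hm0 : Mem (ψ x0) K := mem_mk (hψ x0 hW).2
  have hKk : (attS K).card < k := not_le.1 fun e => hW ⟨K, e, _, hm0, (hψ x0 hW).1⟩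
  obtain ⟨t, ⟨t1, t2, t3, ⟨a, ha, haa⟩, b, hb, z, hbz, hz, hz0⟩, t14, tfew⟩ :=
    short_tail G hconn 14 (fun w => Mem w K ∧ ∀ p, T p w → p = x0) (f x0) (ψ x0) (f (x0 + 1))
      (fun e => e.1.2 ⟨_, rfl⟩) ⟨hm0, fun p e => h.dis _ _ _ e ((l1 _).2 rfl)⟩ (hψ x0 hW).1
      (fun e => e.1.2 ⟨_, rfl⟩)
      (fun e => hL.one_ne (by linear_combination hL.inj e))
      (fun r hr => by
        have h1 := h.deg hψ K x0 r hr.1 fun y hy => by
          obtain ⟨p, hp⟩ := h.i4 y r hy
          rw [hr.2 p hp, l1] at hp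
          exact l4 y (hp ▸ hy)
        have h2 := hδ r
        have h3 : 14 * 14 ≤ (univ.filter
          (fun w => G.Adj r w ∧ (Mem w K ∧ ∀ p, T p w → p = x0))).card := by omega
        convert h3)
  have hbt : b ∈ t := List.mem_of_mem_getLast? hb
  have hat : a ∈ t := List.mem_of_mem_head? ha
  obtain ⟨p0, u, hp0⟩ : ∃ p0 u, (p0 = x0 ∧ z = f u) ∨ (p0 ≠ x0 ∧ T p0 z) := by
    by_cases hf : z ∈ Set.range f
    · obtain ⟨u, rfl⟩ := hf; exact ⟨x0, u, Or.inl ⟨rfl, rfl⟩⟩
    · by_contra hno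
      refine hz ⟨(t3 b hbt).1.step hbz hf, fun p hp => ?_⟩
      by_contra e
      exact hno ⟨p, 0, Or.inr ⟨e, hp⟩⟩
  let T' : ZMod n → V → Prop := fun p v => (p ≠ x0 ∧ T p v) ∨ (p = p0 ∧ v ∈ t)
  let Ad' : ZMod n → ZMod n → Prop := fun p y =>
    (p ≠ x0 ∧ Ad p y) ∨ (p = p0 ∧ (y = x0 ∨ (p0 = x0 ∧ y = u)))
  have htb : ∀ v ∈ t, (Ins G (T' p0)).Reachable v b :=
    ins_chain t t2 (fun v hv => Or.inr ⟨rfl, hv⟩) hb
  have hold : ∀ p, p ≠ x0 → ∀ v, T p v → T' p v := fun p e v hv => Or.inl ⟨e, hv⟩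
  have hzb : ∀ v, p0 ≠ x0 → T p0 v → (Ins G (T' p0)).Reachable v b := by
    intro v e hv
    have hz' := (hp0.resolve_left fun e' => e e'.1).2
    exact (ins_mono (hold p0 e) (h.con _ _ _ hv hz')).trans
      (Adj.reachable (G := Ins G (T' p0)) ⟨hbz.symm, hold p0 e _ hz', Or.inr ⟨rfl, hbt⟩⟩)
  have hlk : ∀ y, y ≠ x0 → Ad' p0 y → Link G f (T' p0) x0 y := by
    rintro y hy (⟨e, hy'⟩ | ⟨-, e | ⟨e, rfl⟩⟩)
    · have hz' := (hp0.resolve_left fun e' => e e'.1).2
      obtain ⟨v, hv, hyv⟩ := h.a1 _ _ hy'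
      obtain ⟨l, n1, n2, n3, n4, n5⟩ := ins_path hz' (h.con _ _ _ hz' hv)
      have hne : l ≠ [] := by rintro rfl; simp at n4
      have hne' : t ≠ [] := List.ne_nil_of_mem hat
      refine ⟨t ++ l, List.nodup_append.2 ⟨t1, n1, ?_⟩, t2.append n2 ?_, ?_, ?_, ?_, ?_⟩
      · rintro c hc _ hc' rfl
        exact e ((t3 c hc).2 _ (n3 c hc'))
      · intro c hc d hd
        rw [n4] at hd; cases hd
        rw [Option.mem_def.1 hb] at hc; cases hc
        exact hbz
      · intro c hc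
        exact (List.mem_append.1 hc).elim (fun e' => Or.inr ⟨rfl, e'⟩) fun e' => hold _ e _ (n3 c e')
      · intro c hc
        rw [List.head?_append_of_ne_nil _ hne', Option.mem_def.1 ha] at hc
        cases hc; exact haa
      · intro c hc
        rw [List.getLast?_append_of_ne_nil _ hne, n5] at hc
        cases hc; exact hyv
      · rw [List.length_append]; omega
    · exact absurd e hy
    · have hz' := (hp0.resolve_right fun e' => e'.1 e).2
      refine ⟨t, t1, t2, fun v hv => Or.inr ⟨rfl, hv⟩, fun c hc => ?_, fun c hc => ?_, t14⟩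
      · rw [Option.mem_def.1 ha] at hc; cases hc; exact haa
      · rw [Option.mem_def.1 hb] at hc; cases hc; exact hz' ▸ hbz.symm
  have htl : ∀ x v, v ∈ tl x → v ∈ Function.update tl x0 t x := by
    intro x v hv
    have : x ≠ x0 := by rintro rfl; simp [l3] at hv
    rwa [Function.update_of_ne this]
  refine ⟨T', Ad', Function.update tl x0 t, ?_, ?_, ?_, ?_, ?_, ?_, ?_, ?_, ?_, ?_⟩
  · rintro p v (⟨-, hv⟩ | ⟨-, hv⟩)
    · obtain ⟨x, hx, e⟩ := h.i1 p v hv
      exact ⟨x, hx, e.imp id (htl x v)⟩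
    · exact ⟨x0, hW, Or.inr (by simpa using hv)⟩
  · intro x v hv
    by_cases e : x = x0
    · subst e; exact (t3 v (by simpa using hv)).1
    · rw [Function.update_of_ne e] at hv; exact h.i2 x v hv
  · intro x r hr hr'
    by_cases e : x = x0
    · subst e
      rw [Function.update_self] at hr ⊢
      convert tfew r hr fun e => hr' ⟨_, e.symm⟩
    · rw [Function.update_of_ne e] at hr ⊢; exact h.i3 x r hr hr'
  · intro x v hv
    by_cases e : x = x0
    · subst e; exact ⟨p0, Or.inr ⟨rfl, by simpa using hv⟩⟩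
    · rw [Function.update_of_ne e] at hv
      obtain ⟨p, hp⟩ := h.i4 x v hv
      refine ⟨p, Or.inl ⟨?_, hp⟩⟩
      rintro rfl
      exact l4 x ((l1 v).1 hp ▸ hv)
  · rintro p p' v (⟨e, hv⟩ | ⟨e, hv⟩) (⟨e', hv'⟩ | ⟨e', hv'⟩)
    · exact h.dis _ _ _ hv hv'
    · exact absurd ((t3 v hv').2 _ hv) e
    · exact absurd ((t3 v hv).2 _ hv') e'
    · exact e.trans e'.symm
  · rintro p v w (⟨e, hv⟩ | ⟨rfl, hv⟩) (⟨e', hw⟩ | ⟨e', hw⟩)
    · exact ins_mono (hold p e) (h.con _ _ _ hv hw)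
    · subst e'; exact (hzb v e hv).trans (htb w hw).symm
    · exact (htb v hv).trans (hzb w e' hw).symm
    · exact (htb v hv).trans (htb w hw).symm
  · rintro p v (⟨e, hv⟩ | ⟨rfl, -⟩)
    · exact Or.inl ⟨e, h.a0 p v hv⟩
    · rcases hp0 with e | e
      · exact Or.inr ⟨rfl, Or.inl e.1⟩
      · exact Or.inl ⟨e.1, h.a0 _ _ e.2⟩
  · rintro p y (⟨e, hy⟩ | ⟨rfl, rfl | ⟨e, rfl⟩⟩)
    · obtain ⟨v, hv, hyv⟩ := h.a1 p y hy
      exact ⟨v, hold p e v hv, hyv⟩
    · exact ⟨a, Or.inr ⟨rfl, hat⟩, haa⟩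
    · exact ⟨b, Or.inr ⟨rfl, hbt⟩, (hp0.resolve_right fun e' => e'.1 e).2 ▸ hbz.symm⟩
  · intro p x y hx hy hxy
    by_cases e : p = p0 ∧ (x = x0 ∨ y = x0)
    · obtain ⟨rfl, rfl | rfl⟩ := e
      · exact hlk y hxy.symm hy
      · exact (hlk x hxy hx).symm
    · rcases hx with ⟨e1, hx⟩ | ⟨e1, hx | hx⟩
      · rcases hy with ⟨-, hy⟩ | ⟨e2, hy | hy⟩
        · exact (h.a2 p x y hx hy hxy).mono (hold p e1)
        · exact absurd ⟨e2, Or.inr hy⟩ e
        · exact absurd (e2.trans hy.1) e1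
      · exact absurd ⟨e1, Or.inl hx⟩ e
      · rcases hy with ⟨e2, -⟩ | ⟨-, hy | hy⟩
        · exact absurd (e1.trans hx.1) e2
        · exact absurd ⟨e1, Or.inr hy⟩ e
        · exact absurd (hx.2.trans hy.2.symm) hxy
  · intro x hx
    by_cases e : x = x0
    · subst e
      left
      rcases hp0 with e | e
      · exact ⟨p0, u, fun e' => hz0 (by rw [e.2, e']), Or.inr ⟨rfl, Or.inl rfl⟩,
          Or.inr ⟨rfl, Or.inr ⟨e.1, rfl⟩⟩⟩
      · exact ⟨p0, p0, e.1, Or.inr ⟨rfl, Or.inl rfl⟩, Or.inl ⟨e.1, h.a0 _ _ e.2⟩⟩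
    rcases h.d x hx with ⟨p, y, hy, h1, h2⟩ | ⟨m0, m1, m2, m3, m4⟩
    · have : p ≠ x0 := by rintro rfl; exact e (l2 _ h1)
      exact Or.inl ⟨p, y, hy, Or.inl ⟨this, h1⟩, Or.inl ⟨this, h2⟩⟩
    by_cases e' : x = p0
    · exact Or.inl ⟨x, x0, Ne.symm e, Or.inl ⟨e, h.a0 _ _ ((m1 _).2 rfl)⟩,
        Or.inr ⟨e', Or.inl rfl⟩⟩
    refine Or.inr ⟨by simp [e, m0], fun v => ?_, ?_, by rwa [Function.update_of_ne e], fun y => ?_⟩
    · simp [T', e, e', m1]
    · rintro y (⟨-, hy⟩ | ⟨hy, -⟩)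
      · exact m2 y hy
      · exact absurd hy e'
    · by_cases e2 : y = x0
      · subst e2
        rw [Function.update_self]
        exact fun hv => e ((t3 _ hv).2 _ ((m1 _).2 rfl))
      · rw [Function.update_of_ne e2]; exact m4 y

theorem pieces (hL : Long G n f) (k : ℕ) (hk : 0 < k)
    (hconn : ∀ s : V, (G.induce ({s}ᶜ : Set V)).Connected)
    (hδ : ∀ v, 19 * k + 196 ≤ G.degree v) :
    ∃ (T : ZMod n → V → Prop) (Ad : ZMod n → ZMod n → Prop),
      (∀ p v, T p v → v ∉ Set.range f ∧ (attS ((Out G f).connectedComponentMk v)).card < k) ∧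
      (∀ p p' v, T p v → T p' v → p = p') ∧
      (∀ p x y, Ad p x → Ad p y → x ≠ y → Link G f (T p) x y) ∧
      ∀ x, ¬ Lv G f k x → ∃ p y, y ≠ x ∧ Ad p x ∧ Ad p y := by
  obtain ⟨ψ0, hinj, hψ0⟩ := exists_psi hL k hk (fun v => by have := hδ v; omega)
  let ψ : ZMod n → V := fun x => if h : Lv G f k x then f x else ψ0 ⟨x, h⟩
  have hψ : ∀ x, ¬ Lv G f k x → G.Adj (f x) (ψ x) ∧ ψ x ∉ Set.range f := fun x hx => by
    simp only [ψ, dif_neg hx]; exact (mem_filter.1 (hψ0 ⟨x, hx⟩)).2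
  have key : ∀ S : Finset (ZMod n), ∃ T Ad tl, Inv G f (fun x => ¬ Lv G f k x) ψ S T Ad tl := by
    intro S
    induction S using Finset.induction_on with
    | empty =>
      refine ⟨fun p v => ¬ Lv G f k p ∧ v = ψ p, fun p y => ¬ Lv G f k p ∧ y = p, fun _ => [],
        fun p v h => ⟨p, h.1, Or.inl h.2⟩, by simp, by simp, by simp, ?_, ?_,
        fun p v h => ⟨h.1, rfl⟩, ?_, ?_, fun x hx => Or.inr ⟨by simp, by simp [hx], by simp, rfl,
          by simp⟩⟩
      · rintro p p' v ⟨h1, rfl⟩ ⟨h2, e⟩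
        simp only [ψ, dif_neg h1, dif_neg h2] at e
        exact congrArg Subtype.val (hinj e)
      · rintro p u w ⟨-, rfl⟩ ⟨-, rfl⟩; exact .refl _
      · rintro p x ⟨h1, rfl⟩; exact ⟨_, ⟨h1, rfl⟩, (hψ _ h1).1⟩
      · rintro p x y ⟨-, rfl⟩ ⟨-, rfl⟩ e; exact absurd rfl e
    | insert x S _ ih =>
      obtain ⟨T, Ad, tl, h⟩ := ih
      exact h.step hL hconn hδ hψ x
  obtain ⟨T, Ad, tl, h⟩ := key univ
  refine ⟨T, Ad, fun p v hv => ?_, h.dis, h.a2,
    fun x hx => (h.d x hx).resolve_right fun e => e.1 (mem_univ _)⟩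
  obtain ⟨x, hx, e⟩ := h.i1 p v hv
  have hm : Mem v ((Out G f).connectedComponentMk (ψ x)) :=
    e.elim (fun e => by rw [e]; exact mem_mk (hψ x hx).2) (h.i2 x v)
  refine ⟨hm.2, not_le.1 fun e' => hx ⟨_, e', ψ x, ?_, (hψ x hx).1⟩⟩
  rw [hm.1]; exact mem_mk (hψ x hx).2

end Pool.Agent.MP_ee574f_co

end

section

set_option autoImplicit false

namespace Pool.Agent.MP_ee574f_co

open SimpleGraph Classical Finset

theorem cast_ne {n : ℕ} (hn : 10 ≤ n) (a : ℕ) (h0 : 0 < a) (h1 : a < 10) :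
    ((a : ℕ) : ZMod n) ≠ 0 := fun e => by
  have := Nat.le_of_dvd h0 ((ZMod.natCast_eq_zero_iff _ _).1 e); omega

theorem max_match {n : ℕ} [NeZero n] (hn : 10 ≤ n) (W : ZMod n → Prop) :
    ∃ E : Finset (ZMod n), (∀ i ∈ E, W i ∧ W (i + 1) ∧ i + 1 ∉ E) ∧
      ∀ i, W i → W (i + 1) → i ∈ E ∨ i + 1 ∈ E ∨ i - 1 ∈ E := by
  obtain ⟨E, hE, hmax⟩ := exists_max_image
    (univ.filter (fun E : Finset (ZMod n) => ∀ i ∈ E, W i ∧ W (i + 1) ∧ i + 1 ∉ E)) card
    ⟨∅, by simp⟩
  have hE' := (mem_filter.1 hE).2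
  refine ⟨E, hE', fun i h1 h2 => ?_⟩
  by_contra hno
  simp only [not_or] at hno
  have h10 : (1 : ZMod n) ≠ 0 := by exact_mod_cast cast_ne hn 1 (by omega) (by omega)
  have := hmax (insert i E) (mem_filter.2 ⟨mem_univ _, fun j hj => ?_⟩)
  · rw [card_insert_of_notMem hno.1] at this; omega
  · rcases mem_insert.1 hj with rfl | hj
    · exact ⟨h1, h2, by simp [h10, hno.2.1]⟩
    · refine ⟨(hE' j hj).1, (hE' j hj).2.1, fun h => ?_⟩
      rcases mem_insert.1 h with h | h
      · exact hno.2.2 (by rw [← h, add_sub_cancel_right]; exact hj)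
      · exact (hE' j hj).2.2 h

theorem cands {n : ℕ} (hn : 10 ≤ n) (Sg : ZMod n → Prop) (Q : Finset (ZMod n))
    (hQ : 3 ≤ Q.card) : ∃ c : Bool → ZMod n, (∀ b, c b ∈ Q) ∧ c false ≠ c true ∧
      (Sg (c false) → Sg (c true) → c false ≠ c true + 2 ∧ c true ≠ c false + 2) ∧
      (Sg (c true) → Sg (c false)) ∧ (Sg (c false) → ¬ Sg (c true) → c false - 2 ∈ Q) := by
  have h2 : (2 : ZMod n) ≠ 0 := by exact_mod_cast cast_ne hn 2 (by omega) (by omega)
  have h6 : (6 : ZMod n) ≠ 0 := by exact_mod_cast cast_ne hn 6 (by omega) (by omega)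
  by_cases h : ∃ x ∈ Q, ∃ y ∈ Q, x ≠ y ∧
      ((¬ Sg x ∧ ¬ Sg y) ∨ (Sg x ∧ Sg y ∧ x ≠ y + 2 ∧ y ≠ x + 2))
  · obtain ⟨x, hx, y, hy, hxy, h⟩ := h
    refine ⟨fun b => if b then y else x, by rintro (_ | _) <;> simpa, by simpa, ?_, ?_, ?_⟩ <;>
      simp only [Bool.false_eq_true, if_false, if_true] <;> tauto
  have key : ∀ x ∈ Q, ∀ y ∈ Q, x ≠ y → (Sg x ∨ Sg y) ∧ (Sg x → Sg y → x = y + 2 ∨ y = x + 2) := by
    intro x hx y hy hxy
    refine ⟨?_, fun a b => ?_⟩
    · by_contra e; exact h ⟨x, hx, y, hy, hxy, Or.inl (not_or.1 e)⟩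
    · by_contra e; exact h ⟨x, hx, y, hy, hxy, Or.inr ⟨a, b, not_or.1 e⟩⟩
  have fin : ∀ x ∈ Q, ∀ z ∈ Q, ∀ y ∈ Q, x ≠ z → x ≠ y → z ≠ y → ¬ Sg y →
      ∃ c : Bool → ZMod n, (∀ b, c b ∈ Q) ∧ c false ≠ c true ∧
      (Sg (c false) → Sg (c true) → c false ≠ c true + 2 ∧ c true ≠ c false + 2) ∧
      (Sg (c true) → Sg (c false)) ∧ (Sg (c false) → ¬ Sg (c true) → c false - 2 ∈ Q) := by
    intro x hx z hz y hy hxz hxy hzy hs
    have sx := (key x hx y hy hxy).1.resolve_right hs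
    have sz := (key z hz y hy hzy).1.resolve_right hs
    rcases (key x hx z hz hxz).2 sx sz with e | e
    · exact ⟨fun b => if b then y else x, by rintro (_ | _) <;> simpa, by simpa,
        by simp [hs], by simp [hs], by simp [e, hz]⟩
    · exact ⟨fun b => if b then y else z, by rintro (_ | _) <;> simpa, by simpa,
        by simp [hs], by simp [hs], by simp [e, hx]⟩
  obtain ⟨a, b, c, ha, hb, hc, hab, hac, hbc⟩ := two_lt_card_iff.1 hQ
  by_cases sa : Sg a
  swap; · exact fin b hb c hc a ha hbc hab.symm hac.symm sa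
  by_cases sb : Sg b
  swap; · exact fin a ha c hc b hb hac hab hbc.symm sb
  by_cases sc : Sg c
  swap; · exact fin a ha b hb c hc hab hac hbc sc
  exfalso
  rcases (key a ha b hb hab).2 sa sb with e1 | e1 <;>
    rcases (key a ha c hc hac).2 sa sc with e2 | e2 <;>
    rcases (key b hb c hc hbc).2 sb sc with e3 | e3
  · exact h2 (by linear_combination -e3 + e2 - e1)
  · exact h2 (by linear_combination -e3 - e2 + e1)
  · exact h6 (by linear_combination -e1 - e2 - e3)
  · exact h2 (by linear_combination e3 - e1 - e2)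
  · exact h2 (by linear_combination e3 - e1 - e2)
  · exact h6 (by linear_combination -e1 - e2 - e3)
  · exact h2 (by linear_combination -e3 + e1 - e2)
  · exact h2 (by linear_combination -e3 - e1 + e2)

variable {V : Type} [Fintype V] {G : SimpleGraph V} {n : ℕ} [NeZero n] {f : ZMod n → V}

/-- Random choice of the roots. -/
theorem sinks2 (hL : Long G n f) (Δ L : ℕ) (hL7 : 7 ≤ L) (hΔ : Δ ≤ 2 ^ L)
    (hdeg : ∀ v, G.degree v ≤ Δ) {κ : Type} [Fintype κ] (o : κ → Bool → ZMod n)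
    (Sg : ZMod n → Prop) (o1 : ∀ q b q' b', o q b = o q' b' → q = q')
    (o3 : ∀ q s, Lv G f (429 * L) s → ∃ b, Sg (o q b) → o q b ≠ s - 1 ∧ o q b ≠ s + 1) :
    ∃ (B : ZMod n → Prop) (ω : κ → Bool), (∀ i, B i → ¬ B (i + 1)) ∧
      (∀ K : Comp G f, 429 * L ≤ (attS K).card → ∃ s, Att s K ∧ B s) ∧
      ∀ s q, B s → Sg (o q (ω q)) → o q (ω q) ≠ s - 1 ∧ o q (ω q) ≠ s + 1 := by
  let good : ZMod n → (ZMod n ⊕ κ → Bool) → Prop := fun s ω =>
    ω (.inl s) = true ∧ ω (.inl (s - 1)) = false ∧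
      ∀ q, Sg (o q (ω (.inr q))) → o q (ω (.inr q)) ≠ s - 1 ∧ o q (ω (.inr q)) ≠ s + 1
  let vars : ZMod n → Finset (ZMod n ⊕ κ) := fun s =>
    {.inl s, .inl (s - 1)} ∪ ((univ.filter (fun q => ∃ b, o q b = s - 1)).image .inr ∪
      (univ.filter (fun q => ∃ b, o q b = s + 1)).image .inr)
  have hone : ∀ v, ((univ.filter (fun q => ∃ b, o q b = v)).image
      (Sum.inr : κ → ZMod n ⊕ κ)).card ≤ 1 := by
    intro v
    refine card_image_le.trans (card_le_one.2 ?_)
    intro q hq q' hq'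
    obtain ⟨b, e⟩ := (mem_filter.1 hq).2
    obtain ⟨b', e'⟩ := (mem_filter.1 hq').2
    exact o1 q b q' b' (e.trans e'.symm)
  have key := lll_atoms (η := {K : Comp G f // 429 * L ≤ (attS K).card}) vars
    (fun s ω => ¬ good s ω) (fun K => attS K.1) Δ L hL7 hΔ ?_ ?_ ?_ ?_ ?_ (fun K => K.2)
  · obtain ⟨ω, hω⟩ := key
    refine ⟨fun s => good s ω, fun q => ω (.inr q), ?_, ?_, fun s q h => h.2.2 q⟩
    · rintro i h h'
      have := h'.2.1; rw [add_sub_cancel_right, h.1] at this; cases this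
    · intro K hK
      obtain ⟨s, hs, hg⟩ := hω ⟨K, hK⟩
      exact ⟨s, (mem_filter.1 hs).2, not_not.1 hg⟩
  · intro s
    have h1 := hone (s - 1)
    have h2 := hone (s + 1)
    have h3 : ({.inl s, .inl (s - 1)} : Finset (ZMod n ⊕ κ)).card ≤ 2 := card_le_two
    refine (card_union_le _ _).trans ?_
    have h4 := card_union_le ((univ.filter (fun q => ∃ b, o q b = s - 1)).image
      (Sum.inr : κ → ZMod n ⊕ κ)) ((univ.filter (fun q => ∃ b, o q b = s + 1)).image .inr)
    omega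
  · intro s ω ω' h hg hg'
    refine hg ⟨?_, ?_, fun q hq => ⟨fun e => ?_, fun e => ?_⟩⟩
    · rw [h _ (by simp [vars])]; exact hg'.1
    · rw [h _ (by simp [vars])]; exact hg'.2.1
    · have := h (.inr q) (mem_union_right _ (mem_union_left _
        (mem_image_of_mem _ (mem_filter.2 ⟨mem_univ _, _, e⟩))))
      exact (hg'.2.2 q (this ▸ hq)).1 (this ▸ e)
    · have := h (.inr q) (mem_union_right _ (mem_union_right _
        (mem_image_of_mem _ (mem_filter.2 ⟨mem_univ _, _, e⟩))))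
      exact (hg'.2.2 q (this ▸ hq)).2 (this ▸ e)
  · intro K s hs
    have hs' : Lv G f (429 * L) s := ⟨K.1, K.2, (mem_filter.1 hs).2⟩
    choose b hb using fun q => o3 q s hs'
    refine ⟨Sum.elim (fun v => decide (v = s)) b, not_not.2 ⟨by simp, ?_, fun q => hb q⟩⟩
    have : s - 1 ≠ s := fun e => hL.one_ne (by linear_combination -e)
    simp [this]
  · rintro (v | q)
    · refine le_trans (card_le_card (t := {v, v + 1}) ?_) (card_le_two.trans (by norm_num))
      intro s hs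
      have := (mem_filter.1 hs).2
      simp only [vars, mem_union, mem_insert, mem_singleton, Sum.inl.injEq, mem_image,
        reduceCtorEq, and_false, exists_false, or_false] at this
      rcases this with rfl | rfl <;> simp
    · refine le_trans (card_le_card
        (t := {o q true + 1, o q false + 1, o q true - 1, o q false - 1}) ?_) card_le_four
      intro s hs
      have := (mem_filter.1 hs).2
      simp only [vars, mem_union, mem_insert, mem_singleton, mem_image, mem_filter, mem_univ,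
        true_and, reduceCtorEq, false_or, Sum.inr.injEq, exists_eq_right] at this
      rcases this with ⟨b, e⟩ | ⟨b, e⟩
      · have : s = o q b + 1 := by rw [e]; ring
        cases b <;> simp [this]
      · have : s = o q b - 1 := by rw [e]; ring
        cases b <;> simp [this]
  · intro s
    refine le_trans ?_ (hdeg (f s))
    rw [← card_neighborFinset_eq_degree]
    have : ∀ K : {K : Comp G f // 429 * L ≤ (attS K).card}, ∃ v, s ∈ attS K.1 →
        Mem v K.1 ∧ G.Adj (f s) v := by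
      intro K
      by_cases h : s ∈ attS K.1
      · obtain ⟨v, hv⟩ := (mem_filter.1 h).2; exact ⟨v, fun _ => hv⟩
      · exact ⟨f 0, fun h' => absurd h' h⟩
    choose w hw using this
    refine card_le_card_of_injOn w ?_ ?_
    · intro K hK
      exact mem_coe.2 ((mem_neighborFinset _ _ _).2 (hw K (mem_filter.1 (mem_coe.1 hK)).2).2)
    · intro K hK K' hK' e
      have h1 := (hw K (mem_filter.1 (mem_coe.1 hK)).2).1
      have h2 := (hw K' (mem_filter.1 (mem_coe.1 hK')).2).1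
      exact Subtype.ext (h1.unique (e ▸ h2))

omit [NeZero n] in
theorem ten_le (hL : Long G n f) (hconn : ∀ s : V, (G.induce ({s}ᶜ : Set V)).Connected)
    (hδ : ∀ v, 66 ≤ G.degree v) : 10 ≤ n := by
  have h1 := hL.one_ne
  have h2 := hL.two_ne
  obtain ⟨t, ⟨t1, t2, t3, ⟨a, ha, haa⟩, b, hb, z, hbz, hz, hz0⟩, t8, -⟩ :=
    short_tail G hconn 8 (fun w => w ≠ f 0 ∧ w ≠ f 1) (f 0) (f (-1)) (f 1) (fun e => e.1 rfl)
      ⟨fun e => h1 (by linear_combination -hL.inj e), fun e => h2 (by linear_combination -hL.inj e)⟩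
      (by simpa using (hL.adj (-1)).symm) (fun e => e.2 rfl) (fun e => h1 (hL.inj e))
      (fun r _ => by
        have hs : G.neighborFinset r ⊆
            univ.filter (fun w => G.Adj r w ∧ (w ≠ f 0 ∧ w ≠ f 1)) ∪ {f 0, f 1} := by
          intro w hw
          by_cases e : w ≠ f 0 ∧ w ≠ f 1
          · exact mem_union_left _ (mem_filter.2 ⟨mem_univ _, (mem_neighborFinset _ _ _).1 hw, e⟩)
          · exact mem_union_right _ (by simp; tauto)
        have a1 := (card_le_card hs).trans (card_union_le _ _)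
        have a2 : ({f 0, f 1} : Finset V).card ≤ 2 := card_le_two
        have a3 := hδ r
        rw [card_neighborFinset_eq_degree] at a1
        have a4 : 8 * 8 ≤ (univ.filter (fun w => G.Adj r w ∧ (w ≠ f 0 ∧ w ≠ f 1))).card := by omega
        convert a4)
  have hz1 : z = f 1 := by by_contra e; exact hz ⟨hz0, e⟩
  subst hz1
  have := hL.long (f 0 :: (t ++ [f 1])) ?_ (by simp; omega) ?_ ?_
  · simp at this; omega
  · refine List.nodup_cons.2 ⟨fun h => ?_, List.nodup_append.2 ⟨t1, by simp, ?_⟩⟩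
    · rcases List.mem_append.1 h with h | h
      · exact (t3 _ h).1 rfl
      · exact hz0 (List.mem_singleton.1 h).symm
    · intro c hc d hd
      rw [List.mem_singleton.1 hd]; exact (t3 c hc).2
  · rw [List.isChain_cons]
    refine ⟨fun y hy => ?_, t2.append (by simp) fun c hc d hd => ?_⟩
    · rw [List.head?_append_of_ne_nil _ (by rintro rfl; simp at t8), Option.mem_def.1 ha] at hy
      cases hy; exact haa
    · rw [Option.mem_def.1 hb] at hc; cases hc
      simp at hd; subst hd; exact hbz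
  · intro c hc d hd
    simp at hc; subst hc
    rw [← List.cons_append, List.getLast?_append_of_ne_nil _ (by simp)] at hd
    simp at hd; subst hd
    simpa using (hL.adj 0).symm

theorem two_conn (hL : Long G n f) (Δ L : ℕ) (hL7 : 7 ≤ L) (hΔ : Δ ≤ 2 ^ L)
    (hdeg : ∀ v, G.degree v ≤ Δ) (hδ : ∀ v, 8151 * L + 196 ≤ G.degree v)
    (hconn : ∀ s : V, (G.induce ({s}ᶜ : Set V)).Connected) : False := by
  set k := 429 * L with hk
  have hn := ten_le hL hconn fun v => by have := hδ v; omega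
  obtain ⟨T, Ad, t1, t2, a2, a3⟩ := pieces hL k (by omega) hconn fun v => by have := hδ v; omega
  let W : ZMod n → Prop := fun x => ¬ Lv G f k x
  let Sg : ZMod n → Prop := fun x => ¬ W (x + 1) ∧ ¬ W (x - 1)
  obtain ⟨E, hE, hEm⟩ := max_match hn W
  let R : ZMod n → ZMod n → Prop := fun a b => ∃ p, Ad p a ∧ Ad p b
  let st : Setoid (ZMod n) := Relation.EqvGen.setoid R
  let cl : Quotient st → Finset (ZMod n) := fun q => univ.filter (fun x => Quotient.mk st x = q)
  let κ := {q : Quotient st // (∀ x ∈ cl q, W x) ∧ 3 ≤ (cl q).card}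
  choose c c1 c2 c3 c4 c5 using fun q : κ => cands hn Sg (cl q.1) q.2.2
  have hcl : ∀ (q q' : κ) x, x ∈ cl q.1 → x ∈ cl q'.1 → q = q' := fun q q' x h h' =>
    Subtype.ext ((mem_filter.1 h).2.symm.trans (mem_filter.1 h').2)
  obtain ⟨S', o, o1, o2, o3⟩ := merge
    (fun a b => (a ∈ E ∧ b = a + 1) ∨ (b ∈ E ∧ a = b + 1)) Sg
    (fun a => ∃ q : κ, a = c q false ∧ a - 2 ∈ cl q.1) 
    (fun a b => a ≠ b ∧ a ≠ b + 2 ∧ b ≠ a + 2)
    (fun a b h => h.symm) (fun a h => hL.one_ne (by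
      linear_combination -(h.elim And.right And.right : a = a + 1)))
    (by
      rintro a b d (⟨h, rfl⟩ | ⟨h, rfl⟩) (⟨h', e⟩ | ⟨h', e⟩)
      · exact e.symm
      · exact absurd (e ▸ h) (hE d h').2.2
      · exact absurd h' (hE b h).2.2
      · exact add_right_cancel e)
    (by
      rintro a b hs (⟨h, rfl⟩ | ⟨h, rfl⟩)
      · exact hs.1 (hE a h).2.1
      · exact hs.2 (by rw [add_sub_cancel_right]; exact (hE b h).1))
    (by
      rintro a b ⟨q, e, h⟩ ⟨q', e', h'⟩ hab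
      have hne : q ≠ q' := fun z => hab (by rw [e, e', z])
      exact ⟨hab, fun z => hne (hcl q q' b (by simpa [z] using h) (e' ▸ c1 q' false)),
        fun z => hne (hcl q q' a (e ▸ c1 q false) (by simpa [z] using h'))⟩)
    (univ : Finset κ) c
    (by
      intro q _ q' _ b b' e
      have := hcl q q' _ (c1 q b) (e ▸ c1 q' b')
      subst this
      refine ⟨rfl, ?_⟩
      cases b <;> cases b'
      exacts [rfl, absurd e (c2 q), absurd e.symm (c2 q), rfl])
    (fun q _ h h' => ⟨c2 q, c3 q h h'⟩)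
    (by
      rintro q _ (_ | _) h h'
      · exact ⟨q, rfl, c5 q h h'⟩
      · exact absurd (c4 q h) h')
  obtain ⟨B, ω, B1, B2, B3⟩ := sinks2 hL Δ L hL7 hΔ hdeg (fun q : S' => o q.1) Sg
    (fun q b q' b' e => Subtype.ext (o1 _ q.2 _ q'.2 b b' e))
    (by
      intro q s hs
      by_contra hno
      push Not at hno
      obtain ⟨f1, f2, f3⟩ := o2 _ q.2 (hno false).1 (hno true).1
      by_cases h : o q false = s - 1 <;> by_cases h' : o q true = s - 1
      · exact f1 (h.trans h'.symm)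
      · exact f3 (by rw [h, (hno true).2 h']; ring)
      · exact f2 (by rw [h', (hno false).2 h]; ring)
      · exact f1 (((hno false).2 h).trans ((hno true).2 h').symm))
  obtain ⟨Sel, e1, e2, e3, e4⟩ := o3 fun q => if h : q ∈ S' then ω ⟨q, h⟩ else false
  have hW : ∀ a, Sel a → W a := fun a h => by
    obtain ⟨q, -, b, rfl⟩ := e2 a h
    exact q.2.1 _ (c1 q b)
  have hB : ∀ s a, B s → Sel a → Sg a → a ≠ s - 1 ∧ a ≠ s + 1 := by
    intro s a hs ha hg
    obtain ⟨q, hq, e⟩ := e4 a ha hg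
    rw [dif_pos hq] at e
    subst e
    exact B3 s ⟨q, hq⟩ hs hg
  let A : ZMod n → Prop := fun s => (¬ W s ∧ B s) ∨ Sel s
  have hA : ∀ s, A s → W s → Sel s := fun s h h' => h.resolve_left fun e => e.1 h'
  have hA' : ∀ s, A s → ¬ W s → B s := fun s h h' => (h.resolve_right fun e => h' (hW s e)).2
  have hrun := run_of_local W A
    (fun i h h' => by
      by_contra e
      exact B1 i (hA' _ h (not_or.1 e).1) (hA' _ h' (not_or.1 e).2))
    (fun i h h' w => by
      by_contra e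
      exact (hB _ _ (hA' _ h' (not_or.1 e).1) (hA _ h w) (not_or.1 e)).1 (by ring))
    (fun i h h' w => by
      by_contra e
      refine (hB _ _ (hA' _ h (not_or.1 e).1) (hA _ h' w) ⟨?_, ?_⟩).2 rfl
      · rw [add_assoc, one_add_one_eq_two]; exact (not_or.1 e).2
      · rw [add_sub_cancel_right]; exact (not_or.1 e).1)
    (fun i h h' w w' => by
      rcases hEm i w w' with e | e | e
      · exact absurd (Or.inl ⟨e, rfl⟩) (e3 _ _ (hA _ h w) (hA _ h' w'))
      · have w2 := (hE _ e).2.1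
        rw [add_assoc, one_add_one_eq_two] at w2
        exact Or.inl ⟨w2, fun z => e3 _ _ (hA _ h' w') (hA _ z w2) (Or.inl ⟨e, by ring⟩)⟩
      · exact Or.inr ⟨(hE _ e).1, fun z => e3 _ _ (hA _ z (hE _ e).1) (hA _ h w)
          (Or.inl ⟨e, by ring⟩)⟩)
  have hc : ∀ a : ℕ, 2 ≤ a → a < 10 → ((a : ℕ) : ZMod n) ≠ 0 ∧ ((a : ℕ) : ZMod n) ≠ 1 := by
    intro a h1 h2
    refine ⟨cast_ne hn a (by omega) h2, fun e => cast_ne hn (a - 1) (by omega) (by omega) ?_⟩
    rw [Nat.cast_sub (by omega), e]; simp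
  refine finish2 hL k T Ad t1 t2 a2 A ?_ hrun (fun K hK => ?_) fun x => ?_
  · by_cases h5 : A 5
    swap; · exact ⟨5, h5, by exact_mod_cast hc 5 (by omega) (by omega)⟩
    by_cases h6 : A (5 + 1)
    swap
    · exact ⟨_, h6, by have := hc 6 (by omega) (by omega); norm_num at this ⊢; exact this⟩
    obtain ⟨x, -, hx, -, hm⟩ := hrun A (fun _ => id) 5 h5 (Or.inl h6)
    refine ⟨x, hx, ?_⟩
    simp only [mem_insert, mem_singleton] at hm
    rcases hm with e | e | e | e | e | e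
    · rw [show x = ((4 : ℕ) : ZMod n) by push_cast; linear_combination -e]
      exact hc 4 (by omega) (by omega)
    · rw [show x = ((3 : ℕ) : ZMod n) by push_cast; linear_combination -e]
      exact hc 3 (by omega) (by omega)
    · rw [show x = ((2 : ℕ) : ZMod n) by push_cast; linear_combination -e]
      exact hc 2 (by omega) (by omega)
    · rw [show x = ((6 : ℕ) : ZMod n) by push_cast; linear_combination -e]
      exact hc 6 (by omega) (by omega)
    · rw [show x = ((7 : ℕ) : ZMod n) by push_cast; linear_combination -e]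
      exact hc 7 (by omega) (by omega)
    · rw [show x = ((8 : ℕ) : ZMod n) by push_cast; linear_combination -e]
      exact hc 8 (by omega) (by omega)
  · obtain ⟨s, h1, h2⟩ := B2 K hK
    exact ⟨s, h1, Or.inl ⟨fun e => e ⟨K, hK, h1⟩, h2⟩⟩
  · have hmem : ∀ z, z ∈ cl (Quotient.mk st x) ↔ Relation.EqvGen R x z := fun z => by
      simp only [cl, mem_filter, mem_univ, true_and]
      exact ⟨fun e => Quotient.exact e.symm, fun e => (Quotient.sound (s := st) e).symm⟩
    by_cases h : ∀ z ∈ cl (Quotient.mk st x), W z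
    swap
    · push Not at h
      obtain ⟨y, e, hy⟩ := h
      exact Or.inl ⟨y, Or.inl (not_not.1 hy), (hmem y).1 e⟩
    by_cases h3 : 3 ≤ (cl (Quotient.mk st x)).card
    · obtain ⟨b, hb⟩ := e1 ⟨_, h, h3⟩ (mem_univ _)
      exact Or.inl ⟨_, Or.inr (Or.inr hb), (hmem _).1 (c1 ⟨_, h, h3⟩ b)⟩
    · right
      have hx := (hmem x).2 (.refl _)
      obtain ⟨p, y, hy, p1, p2⟩ := a3 x (h x hx)
      have h2 : 1 < (cl (Quotient.mk st x)).card :=
        one_lt_card.2 ⟨y, (hmem y).2 (.rel _ _ ⟨p, p1, p2⟩), x, hx, hy⟩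
      have h4 : (cl (Quotient.mk st x)).card = 2 := by omega
      have h5 : univ.filter (fun z => Relation.EqvGen R x z) = cl (Quotient.mk st x) := by
        ext z; rw [hmem]; simp
      have h6 : Even (univ.filter (fun z => Relation.EqvGen R x z)).card := by
        rw [h5, h4]; exact even_two
      convert h6

end Pool.Agent.MP_ee574f_co

end
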